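import Mathlib

/-!
# Equidistribution of weighted points on the torus
-/

namespace Pool.Agent.H.MP_2e4794_nt.RP

open MeasureTheory UnitAddTorus Finset

/-- the normalised measure on the circle -/
noncomputable local instance : MeasureSpace UnitAddCircle := ⟨AddCircle.haarAddCircle⟩

local instance : Measure.IsAddHaarMeasure (volume : Measure UnitAddCircle) :=
  inferInstanceAs (Measure.IsAddHaarMeasure AddCircle.haarAddCircle)

local instance : IsProbabilityMeasure (volume : Measure UnitAddCircle) :=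
  inferInstanceAs (IsProbabilityMeasure AddCircle.haarAddCircle)

variable {d : Type} [Fintype d]

/-- weighted sums of `g` are close to the mean value, if the exponential sums are small -/
def Good (g : C(UnitAddTorus d, ℂ)) : Prop :=
  ∀ ε : ℝ, 0 < ε → ∃ K : ℕ, ∀ (ι : Type) (s : Finset ι) (a : ι → ℝ) (x : ι → UnitAddTorus d) (E : ℝ),
    0 ≤ E → (∀ i ∈ s, 0 ≤ a i) →
    (∀ k : d → ℤ, k ≠ 0 → (∀ j, |k j| ≤ K) → ‖∑ i ∈ s, (a i : ℂ) * mFourier k (x i)‖ ≤ E) →
    ‖∑ i ∈ s, (a i : ℂ) * g (x i) - (∑ i ∈ s, (a i : ℂ)) * ∫ y, g y‖ ≤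
      ε * (∑ i ∈ s, a i) + K * E

lemma integral_mFourier {k : d → ℤ} (hk : k ≠ 0) : ∫ y, mFourier k y = 0 := by
  rw [mFourier]
  simp only [ContinuousMap.coe_mk]
  rw [MeasureTheory.integral_fintype_prod_volume_eq_prod (fun i (y : UnitAddCircle) =>
    (fourier (k i) y : ℂ))]
  obtain ⟨i, hi⟩ := Function.ne_iff.mp hk
  apply Finset.prod_eq_zero (Finset.mem_univ i)
  have h1 := fourierCoeff_fourier (T := 1) (k i)
  have h2 := congrFun h1 0
  rw [Pi.single_apply, if_neg (by simpa using hi.symm)] at h2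
  simp only [fourierCoeff, neg_zero, fourier_zero, one_smul] at h2
  exact h2

lemma integrable_cont (g : C(UnitAddTorus d, ℂ)) : Integrable (fun y => g y) :=
  g.continuous.integrable_of_hasCompactSupport (HasCompactSupport.of_compactSpace _)

lemma good_mFourier (k : d → ℤ) : Good (mFourier k) := by
  intro ε hε
  rcases eq_or_ne k 0 with rfl | hk
  · refine ⟨0, ?_⟩
    intro ι s a x E hE ha _
    have h1 : ∫ y : UnitAddTorus d, (mFourier (0 : d → ℤ)) y = 1 := by
      simp [mFourier_zero]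
    rw [h1]
    simp only [mFourier_zero, ContinuousMap.one_apply, mul_one, sub_self, norm_zero]
    have := sum_nonneg ha
    positivity
  · obtain ⟨K, hK⟩ : ∃ K : ℕ, ∀ j, |k j| ≤ K := by
      refine ⟨(∑ j, |k j|).toNat, ?_⟩
      intro j
      have h0 : 0 ≤ ∑ j, |k j| := sum_nonneg fun _ _ => abs_nonneg _
      rw [Int.toNat_of_nonneg h0]
      exact single_le_sum (f := fun j => |k j|) (fun _ _ => abs_nonneg _) (mem_univ j)
    refine ⟨K + 1, ?_⟩
    intro ι s a x E hE ha h
    rw [integral_mFourier hk, mul_zero, sub_zero]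
    have h1 := h k hk (fun j => (hK j).trans (by push_cast; linarith))
    have h2 : 0 ≤ ε * ∑ i ∈ s, a i := mul_nonneg hε.le (sum_nonneg ha)
    have h3 : 0 ≤ (K : ℝ) * E := by positivity
    push_cast
    linarith

lemma good_add {f g : C(UnitAddTorus d, ℂ)} (hf : Good f) (hg : Good g) : Good (f + g) := by
  intro ε hε
  obtain ⟨K1, h1⟩ := hf (ε / 2) (by linarith)
  obtain ⟨K2, h2⟩ := hg (ε / 2) (by linarith)
  refine ⟨K1 + K2, ?_⟩
  intro ι s a x E hE ha h
  have a1 := h1 ι s a x E hE ha (fun k hk hj => h k hk (fun j => (hj j).trans (by push_cast; linarith)))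
  have a2 := h2 ι s a x E hE ha (fun k hk hj => h k hk (fun j => (hj j).trans (by push_cast; linarith)))
  have e1 : ∑ i ∈ s, (a i : ℂ) * (f + g) (x i) - (∑ i ∈ s, (a i : ℂ)) * ∫ y, (f + g) y =
      (∑ i ∈ s, (a i : ℂ) * f (x i) - (∑ i ∈ s, (a i : ℂ)) * ∫ y, f y) +
      (∑ i ∈ s, (a i : ℂ) * g (x i) - (∑ i ∈ s, (a i : ℂ)) * ∫ y, g y) := by
    simp only [ContinuousMap.add_apply]
    rw [integral_add (integrable_cont f) (integrable_cont g)]
    simp only [mul_add, sum_add_distrib]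
    ring
  rw [e1]
  refine (norm_add_le _ _).trans ?_
  push_cast
  linarith

lemma good_smul {f : C(UnitAddTorus d, ℂ)} (hf : Good f) (c : ℂ) : Good (c • f) := by
  intro ε hε
  obtain ⟨K1, h1⟩ := hf (ε / (‖c‖ + 1)) (by positivity)
  obtain ⟨N, hN⟩ := exists_nat_ge (‖c‖ + 1)
  refine ⟨N * K1 + K1, ?_⟩
  intro ι s a x E hE ha h
  have a1 := h1 ι s a x E hE ha (fun k hk hj => h k hk (fun j => (hj j).trans (by
    push_cast
    have : (0 : ℤ) ≤ N * K1 := by positivity
    linarith)))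
  have e1 : ∑ i ∈ s, (a i : ℂ) * (c • f) (x i) - (∑ i ∈ s, (a i : ℂ)) * ∫ y, (c • f) y =
      c * (∑ i ∈ s, (a i : ℂ) * f (x i) - (∑ i ∈ s, (a i : ℂ)) * ∫ y, f y) := by
    simp only [ContinuousMap.smul_apply, smul_eq_mul]
    rw [integral_const_mul, mul_sub, mul_sum]
    congr 1
    · exact sum_congr rfl fun i _ => by ring
    · ring
  rw [e1, norm_mul]
  have h2 : 0 ≤ ∑ i ∈ s, a i := sum_nonneg ha
  have hc : 0 ≤ ‖c‖ := norm_nonneg c
  calc ‖c‖ * _ ≤ (‖c‖ + 1) * (ε / (‖c‖ + 1) * (∑ i ∈ s, a i) + K1 * E) := by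
        apply mul_le_mul (by linarith) a1 (norm_nonneg _) (by linarith)
    _ = ε * (∑ i ∈ s, a i) + (‖c‖ + 1) * (K1 * E) := by
        field_simp
    _ ≤ ε * (∑ i ∈ s, a i) + ((N * K1 + K1 : ℕ) : ℝ) * E := by
        have h3 : (‖c‖ + 1) * (K1 * E) ≤ N * (K1 * E) :=
          mul_le_mul_of_nonneg_right hN (by positivity)
        have h4 : 0 ≤ (K1 : ℝ) * E := by positivity
        push_cast
        nlinarith

lemma good_zero : Good (0 : C(UnitAddTorus d, ℂ)) := by
  have h := good_smul (good_mFourier (0 : d → ℤ)) (0 : ℂ)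
  have h2 : (0 : ℂ) • mFourier (0 : d → ℤ) = 0 := by
    ext y
    simp
  rwa [h2] at h

lemma good_span {f : C(UnitAddTorus d, ℂ)}
    (hf : f ∈ Submodule.span ℂ (Set.range (mFourier (d := d)))) : Good f := by
  induction hf using Submodule.span_induction with
  | mem x h =>
    obtain ⟨k, rfl⟩ := h
    exact good_mFourier k
  | zero => exact good_zero
  | add x y _ _ hx hy => exact good_add hx hy
  | smul a x _ hx => exact good_smul hx a

/-- **Equidistribution**: every continuous function is good. -/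
theorem good_all (g : C(UnitAddTorus d, ℂ)) : Good g := by
  intro ε hε
  have h1 : g ∈ closure (Submodule.span ℂ (Set.range (mFourier (d := d))) :
      Set C(UnitAddTorus d, ℂ)) := by
    have := span_mFourier_closure_eq_top (d := d)
    have h2 : g ∈ (Submodule.span ℂ (Set.range (mFourier (d := d)))).topologicalClosure := by
      rw [this]; trivial
    exact h2
  obtain ⟨f, hf, hfg⟩ := Metric.mem_closure_iff.1 h1 (ε / 3) (by linarith)
  obtain ⟨K, hK⟩ := good_span hf (ε / 3) (by linarith)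
  refine ⟨K, ?_⟩
  intro ι s a x E hE ha h
  have a1 := hK ι s a x E hE ha h
  have hnorm : ∀ y, ‖g y - f y‖ ≤ ε / 3 := by
    intro y
    have := (g - f).norm_coe_le_norm y
    rw [dist_eq_norm] at hfg
    simp only [ContinuousMap.sub_apply] at this
    linarith
  have hA : 0 ≤ ∑ i ∈ s, a i := sum_nonneg ha
  have b1 : ‖∑ i ∈ s, (a i : ℂ) * (g (x i) - f (x i))‖ ≤ ε / 3 * ∑ i ∈ s, a i := by
    refine (norm_sum_le _ _).trans ?_
    rw [mul_sum]
    apply sum_le_sum
    intro i hi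
    rw [norm_mul, Complex.norm_real, Real.norm_of_nonneg (ha i hi), mul_comm]
    exact mul_le_mul_of_nonneg_right (hnorm _) (ha i hi)
  have b2 : ‖(∑ i ∈ s, (a i : ℂ)) * ((∫ y, f y) - ∫ y, g y)‖ ≤ ε / 3 * ∑ i ∈ s, a i := by
    rw [← integral_sub (integrable_cont f) (integrable_cont g), norm_mul]
    have c1 : ‖∫ y, (f y - g y)‖ ≤ ε / 3 := by
      have := norm_integral_le_of_norm_le_const (μ := (volume : Measure (UnitAddTorus d)))
        (f := fun y => f y - g y) (C := ε / 3)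
        (Filter.Eventually.of_forall fun y => by rw [norm_sub_rev]; exact hnorm y)
      simpa using this
    have c2 : ‖∑ i ∈ s, (a i : ℂ)‖ = ∑ i ∈ s, a i := by
      rw [← Complex.ofReal_sum, Complex.norm_real, Real.norm_of_nonneg hA]
    rw [c2, mul_comm]
    exact mul_le_mul_of_nonneg_right c1 hA
  have e1 : ∑ i ∈ s, (a i : ℂ) * g (x i) - (∑ i ∈ s, (a i : ℂ)) * ∫ y, g y =
      ∑ i ∈ s, (a i : ℂ) * (g (x i) - f (x i)) +
      (∑ i ∈ s, (a i : ℂ)) * ((∫ y, f y) - ∫ y, g y) +
      (∑ i ∈ s, (a i : ℂ) * f (x i) - (∑ i ∈ s, (a i : ℂ)) * ∫ y, f y) := by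
    simp only [mul_sub, sum_sub_distrib]
    ring
  rw [e1]
  refine (norm_add₃_le).trans ?_
  linarith

end Pool.Agent.H.MP_2e4794_nt.RP
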