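import Pool.Agent.H.MP_2e4794_nt.RL.DU

/-!
# Sums of `p^{-1-iu}` over primes, `u` fixed
-/

namespace Pool.Agent.H.MP_2e4794_nt.RP

open Finset Filter Topology
open Pool.Agent.H.MP_2e4794_nt.RL
open Pool.Agent.H.MP_2e4794_nt.ZM (prs mem_prs prm_eq_prs)
open Pool.Agent.H.MP_3e6494_nt (mert prm)

/-- the constant for the higher prime powers -/
noncomputable def B2 : ℝ := ∑' n : ℕ, 1 / (n : ℝ) ^ 2

lemma sum_sq_le (s : Finset ℕ) : ∑ p ∈ s, 1 / (p : ℝ) ^ 2 ≤ B2 := by
  have hs : Summable fun n : ℕ => 1 / (n : ℝ) ^ 2 :=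
    Real.summable_one_div_nat_pow.2 (by norm_num)
  exact hs.sum_le_tsum s fun n _ => by positivity

lemma B2_nonneg : 0 ≤ B2 := by
  have := sum_sq_le ∅
  simpa using this

lemma ll_sub {p : ℕ} (hp : 2 ≤ p) {z : ℂ} (hz : 1 ≤ z.re) :
    ‖ll p z - (p : ℂ) ^ (-z)‖ ≤ 1 / (p : ℝ) ^ 2 := by
  have h1 := pcpow_le_half hp hz
  have hp1 : (2 : ℝ) ≤ p := by exact_mod_cast hp
  obtain ⟨w, hw⟩ : ∃ w, w = (p : ℂ) ^ (-z) := ⟨_, rfl⟩
  unfold ll
  rw [← hw] at h1 ⊢
  have h2 : ‖w‖ ≤ 1 / p := by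
    rw [hw, norm_pcpow hp, one_div, ← Real.rpow_neg_one]
    exact Real.rpow_le_rpow_of_exponent_le (by linarith) (by linarith)
  have h3 := Complex.norm_log_one_add_sub_self_le (z := -w) (by rw [norm_neg]; linarith)
  rw [norm_neg] at h3
  have h4 : -Complex.log (1 - w) - w = -(Complex.log (1 + -w) - -w) := by ring_nf
  rw [h4, norm_neg]
  refine h3.trans ?_
  have h5 : (1 - ‖w‖)⁻¹ ≤ 2 := by
    rw [inv_le_comm₀ (by linarith) (by norm_num)]
    linarith
  have h6 : 0 ≤ ‖w‖ := norm_nonneg w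
  calc ‖w‖ ^ 2 * (1 - ‖w‖)⁻¹ / 2 ≤ ‖w‖ ^ 2 * 2 / 2 := by gcongr
    _ = ‖w‖ ^ 2 := by ring
    _ ≤ (1 / p) ^ 2 := by gcongr
    _ = 1 / (p : ℝ) ^ 2 := by rw [one_div_pow]

lemma SY_near (y : ℕ) {z : ℂ} (hz : 1 ≤ z.re) :
    ‖SY y z - ∑ p ∈ prs 0 y, (p : ℂ) ^ (-z)‖ ≤ B2 := by
  unfold SY
  rw [← sum_sub_distrib]
  refine (norm_sum_le _ _).trans (le_trans ?_ (sum_sq_le (prs 0 y)))
  apply sum_le_sum
  intro p hp
  rw [mem_prs] at hp
  exact ll_sub hp.2.two_le hz

lemma log_zeta_bdd {u : ℝ} (hu : u ≠ 0) : ∃ B : ℝ, ∀ c ∈ Set.Icc (0 : ℝ) 1,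
    |Real.log ‖riemannZeta (1 + c + u * Complex.I)‖| ≤ B := by
  have h1 : ∀ c ∈ Set.Icc (0 : ℝ) 1, (1 : ℂ) + c + u * Complex.I ≠ 1 := by
    intro c _ h
    have := congrArg Complex.im h
    simp at this
    exact hu this
  have h2 : ContinuousOn (fun c : ℝ => Real.log ‖riemannZeta (1 + c + u * Complex.I)‖)
      (Set.Icc 0 1) := by
    intro c hc
    apply ContinuousAt.continuousWithinAt
    apply ContinuousAt.log
    · apply ContinuousAt.norm
      have h3 : ContinuousAt riemannZeta ((1 : ℂ) + c + u * Complex.I) :=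
        (differentiableAt_riemannZeta (h1 c hc)).continuousAt
      exact ContinuousAt.comp (f := fun c : ℝ => (1 : ℂ) + c + u * Complex.I) h3 (by fun_prop)
    · rw [norm_ne_zero_iff]
      apply riemannZeta_ne_zero_of_one_le_re
      simp [hc.1]
  obtain ⟨B, hB⟩ := isCompact_Icc.exists_bound_of_continuousOn h2
  exact ⟨B, fun c hc => by simpa using hB c hc⟩

/-- replacing `1/p` by `p^{-1-1/log y}` -/
lemma head_sum {y : ℕ} (hy : 3 ≤ y) :
    ∑ p ∈ prs 0 y, (1 / (p : ℝ) - (p : ℝ) ^ (-(1 + 1 / Real.log y))) ≤ 3 := by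
  have hy1 : (3 : ℝ) ≤ y := by exact_mod_cast hy
  have hl : 1 < Real.log y := by
    rw [Real.lt_log_iff_exp_lt (by linarith)]
    linarith [Real.exp_one_lt_d9]
  have h1 : ∀ p ∈ prs 0 y, 1 / (p : ℝ) - (p : ℝ) ^ (-(1 + 1 / Real.log y)) ≤
      1 / Real.log y * (Real.log p / p) := by
    intro p hp
    rw [mem_prs] at hp
    have hp0 : (0 : ℝ) < p := by exact_mod_cast hp.2.pos
    have h2 : (p : ℝ) ^ (-(1 + 1 / Real.log y)) = 1 / p * Real.exp (-(Real.log p / Real.log y)) := by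
      have h9 : 1 / (p : ℝ) = Real.exp (-Real.log p) := by
        rw [Real.exp_neg, Real.exp_log hp0, one_div]
      rw [h9, Real.rpow_def_of_pos hp0, ← Real.exp_add]
      congr 1
      ring
    rw [h2]
    have h3 := Real.add_one_le_exp (-(Real.log p / Real.log y))
    have h4 : 0 ≤ 1 / (p : ℝ) := by positivity
    have h5 := mul_le_mul_of_nonneg_left h3 h4
    have h6 : 1 / Real.log y * (Real.log p / p) = 1 / p * (Real.log p / Real.log y) := by ring
    rw [h6]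
    linarith
  refine (sum_le_sum h1).trans ?_
  rw [← mul_sum]
  have h7 : ∑ p ∈ prs 0 y, Real.log p / (p : ℝ) ≤ Real.log y + 2 := by
    have := Pool.MP42e49e.mert_upper' (x := y) (by omega)
    unfold mert at this
    rwa [prm_eq_prs] at this
  calc 1 / Real.log y * ∑ p ∈ prs 0 y, Real.log p / (p : ℝ) ≤
      1 / Real.log y * (Real.log y + 2) := by
        apply mul_le_mul_of_nonneg_left h7
        positivity
    _ = 1 + 2 / Real.log y := by field_simp
    _ ≤ 3 := by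
        have : 2 / Real.log y ≤ 2 := by
          rw [div_le_iff₀ (by linarith)]
          linarith
        linarith

lemma sum_le_of_small {y : ℕ} (hy : y ≤ 3) : ∑ p ∈ prs 0 y, 1 / (p : ℝ) ≤ 2 := by
  have h1 : prs 0 y ⊆ {2, 3} := by
    intro p hp
    rw [mem_prs] at hp
    have := hp.2.two_le
    simp only [mem_insert, mem_singleton]
    omega
  have h2 : ∑ p ∈ prs 0 y, 1 / (p : ℝ) ≤ ∑ p ∈ ({2, 3} : Finset ℕ), 1 / (p : ℝ) :=
    sum_le_sum_of_subset_of_nonneg h1 fun _ _ _ => by positivity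
  refine h2.trans ?_
  rw [sum_pair (by norm_num)]
  norm_num

/-- **Bounded sums.** -/
theorem cos_sum_bdd {u : ℝ} (hu : u ≠ 0) : ∃ B : ℝ, 0 ≤ B ∧ ∀ y : ℕ,
    |∑ p ∈ prs 0 y, 1 / (p : ℝ) * (ee p u).re| ≤ B := by
  obtain ⟨B, hB⟩ := log_zeta_bdd hu
  have hB0 : 0 ≤ B := (abs_nonneg _).trans (hB 0 (by simp))
  refine ⟨B + B2 + 100, by linarith [B2_nonneg], ?_⟩
  intro y
  have hee : ∀ p ∈ prs 0 y, |(ee p u).re| ≤ 1 := by
    intro p hp
    rw [mem_prs] at hp
    refine (Complex.abs_re_le_norm _).trans ?_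
    unfold ee
    rw [Complex.norm_natCast_cpow_of_pos hp.2.pos]
    simp
  rcases lt_or_ge y 3 with hy | hy
  · have h1 : |∑ p ∈ prs 0 y, 1 / (p : ℝ) * (ee p u).re| ≤ ∑ p ∈ prs 0 y, 1 / (p : ℝ) := by
      refine (abs_sum_le_sum_abs _ _).trans (sum_le_sum fun p hp => ?_)
      rw [abs_mul, abs_of_nonneg (by positivity : 0 ≤ 1 / (p : ℝ))]
      exact mul_le_of_le_one_right (by positivity) (hee p hp)
    have h2 := sum_le_of_small hy.le
    linarith [B2_nonneg]
  · have hy1 : (3 : ℝ) ≤ y := by exact_mod_cast hy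
    have hl : 1 < Real.log y := by
      rw [Real.lt_log_iff_exp_lt (by linarith)]
      linarith [Real.exp_one_lt_d9]
    obtain ⟨c, hc⟩ : ∃ c, c = 1 / Real.log y := ⟨_, rfl⟩
    have hc0 : 0 < c := by
      rw [hc]
      positivity
    have hc1 : c ≤ 1 := by
      rw [hc, div_le_one (by linarith)]
      exact hl.le
    obtain ⟨z, hz⟩ : ∃ z : ℂ, z = 1 + c + u * Complex.I := ⟨_, rfl⟩
    have hzre : z.re = 1 + c := by
      rw [hz]
      simp
    -- the difference to the sum with exponent `z`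
    have h1 : |∑ p ∈ prs 0 y, 1 / (p : ℝ) * (ee p u).re -
        (∑ p ∈ prs 0 y, (p : ℂ) ^ (-z)).re| ≤ 3 := by
      rw [Complex.re_sum, ← sum_sub_distrib]
      refine (abs_sum_le_sum_abs _ _).trans (le_trans ?_ (hc ▸ head_sum hy))
      apply sum_le_sum
      intro p hp
      have hp2 := (mem_prs.1 hp).2
      have hp0 : (p : ℂ) ≠ 0 := by exact_mod_cast hp2.ne_zero
      have hp1 : (1 : ℝ) ≤ p := by exact_mod_cast hp2.one_le
      have e1 : (p : ℂ) ^ (-z) = (((p : ℝ) ^ (-(1 + c)) : ℝ) : ℂ) * ee p u := by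
        unfold ee
        rw [Complex.ofReal_cpow (by linarith), hz, Complex.ofReal_natCast, ← Complex.cpow_add _ _ hp0]
        congr 1
        push_cast
        ring
      rw [e1, Complex.re_ofReal_mul, ← sub_mul, abs_mul]
      have h2 : (p : ℝ) ^ (-(1 + c)) ≤ 1 / p := by
        rw [one_div, ← Real.rpow_neg_one]
        exact Real.rpow_le_rpow_of_exponent_le hp1 (by linarith)
      rw [abs_of_nonneg (by linarith)]
      exact mul_le_of_le_one_right (by linarith) (hee p hp)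
    have h2 := (Complex.abs_re_le_norm _).trans (SY_near y (z := z) (by linarith))
    have h3 := (Complex.abs_re_le_norm _).trans (tail_PP (y := y) (by omega) hc0 hc1 hzre)
    have h4 : 78 * (y : ℝ) ^ (-c) / (c * Real.log y) ≤ 78 := by
      have h5 : c * Real.log y = 1 := by
        rw [hc]
        field_simp
      rw [h5, div_one]
      have : (y : ℝ) ^ (-c) ≤ 1 := Real.rpow_le_one_of_one_le_of_nonpos (by linarith) (by linarith)
      linarith
    have h5 : |(PP z).re| ≤ B := by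
      have h6 : (PP z).re = Real.log ‖riemannZeta z‖ := by
        rw [← exp_PP (by linarith), Complex.norm_exp, Real.log_exp]
      rw [h6, hz]
      exact hB c ⟨hc0.le, hc1⟩
    rw [Complex.sub_re] at h2 h3
    have a1 := abs_le.1 h1
    have a2 := abs_le.1 h2
    have a3 := abs_le.1 (h3.trans h4)
    have a4 := abs_le.1 h5
    rw [abs_le]
    constructor <;> linarith [B2_nonneg, a1.1, a1.2, a2.1, a2.2, a3.1, a3.2, a4.1, a4.2]

end Pool.Agent.H.MP_2e4794_nt.RP
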