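import Pool.Agent.H.MP_2e4794_nt.RP.RB
import Pool.Agent.H.MP_2e4794_nt.RL.FN

/-!
# Values of the zeta function at points with independent differences, under RH
-/

namespace Pool.Agent.H.MP_2e4794_nt.RP

open Finset Filter Topology
open Pool.Agent.H.MP_2e4794_nt.RL
open Pool.Agent.H.MP_2e4794_nt.ZM (prs mem_prs)

variable {m : ℕ}

lemma norm_VV_neg (w : ℕ → ℝ) (y : ℕ) (u : ℝ) :
    ‖VV w y (1 + ((-u : ℝ) : ℂ) * Complex.I)‖ = ‖VV w y (1 + u * Complex.I)‖ := by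
  rw [← RCLike.norm_conj (VV w y (1 + u * Complex.I)), VV_eq, VV_eq, map_sum]
  congr 1
  apply sum_congr rfl
  intro p hp
  rw [mem_prs] at hp
  rw [map_mul, Complex.conj_ofReal]
  congr 1
  have h2 := ee_mul hp.2.two_le 0 u
  rw [zero_sub] at h2
  rw [← h2]
  unfold ee
  simp

lemma ee_add {p : ℕ} (hp : 2 ≤ p) (t u : ℝ) : ee p (t + u) = ee p t * ee p u := by
  have h0 : (p : ℂ) ≠ 0 := by
    have : p ≠ 0 := by omega
    exact_mod_cast this
  unfold ee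
  rw [← Complex.cpow_add _ _ h0]
  congr 1
  push_cast
  ring

lemma norm_ee {p : ℕ} (hp : 2 ≤ p) (t : ℝ) : ‖ee p t‖ = 1 := by
  unfold ee
  rw [Complex.norm_natCast_cpow_of_pos (by omega)]
  simp

/-- the `L¹` norm is at most the sum of the coefficients -/
lemma L1_le (S : Finset (Fin m → ℤ)) (c : (Fin m → ℤ) → ℝ) : L1 S c ≤ ∑ k ∈ S, |c k| := by
  unfold L1
  have h1 : ∀ x ∈ Set.Icc (0 : Fin m → ℝ) 1, ‖(‖∑ k ∈ S, (c k : ℂ) *
      Complex.exp (2 * Real.pi * Complex.I * ∑ i, (k i : ℂ) * (x i : ℂ))‖ : ℝ)‖ ≤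
      ∑ k ∈ S, |c k| := by
    intro x _
    rw [norm_norm]
    refine (norm_sum_le _ _).trans ?_
    apply sum_le_sum
    intro k _
    rw [norm_mul, Complex.norm_real, Real.norm_eq_abs]
    have h2 : (2 * Real.pi * Complex.I * ∑ i, (k i : ℂ) * (x i : ℂ)) =
        ((2 * Real.pi * ∑ i, (k i : ℝ) * x i : ℝ) : ℂ) * Complex.I := by
      push_cast
      ring
    rw [h2, Complex.norm_exp_ofReal_mul_I, mul_one]
  have h3 := MeasureTheory.norm_setIntegral_le_of_norm_le_const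
    (μ := MeasureTheory.volume) (by
      rw [Real.volume_Icc_pi]
      exact ENNReal.prod_lt_top fun _ _ => ENNReal.ofReal_lt_top) h1
  have h4 : (MeasureTheory.volume : MeasureTheory.Measure (Fin m → ℝ)).real
      (Set.Icc (0 : Fin m → ℝ) 1) = 1 := by
    rw [MeasureTheory.measureReal_def, Real.volume_Icc_pi]
    simp
  rw [h4, mul_one] at h3
  exact (Real.le_norm_self _).trans h3

lemma L1_nonneg (S : Finset (Fin m → ℤ)) (c : (Fin m → ℤ) → ℝ) : 0 ≤ L1 S c :=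
  MeasureTheory.setIntegral_nonneg measurableSet_Icc fun _ _ => norm_nonneg _

/-- the sum over the points, for the large primes -/
lemma sum_VV_le (S : Finset (Fin m → ℤ)) (c : (Fin m → ℤ) → ℝ) {w : ℕ → ℝ} (hw : ∀ p, 0 ≤ w p)
    (y : ℕ) (h : Fin m → ℝ) (t : ℝ) :
    ∑ k ∈ S, c k * (VV w y (1 + ((t + ∑ i, (k i : ℝ) * h i : ℝ) : ℂ) * Complex.I)).re ≤
      ∑ p ∈ prs 0 y, w p * (1 / (p : ℝ)) *
        ‖∑ k ∈ S, (c k : ℂ) * ee p (∑ i, (k i : ℝ) * h i)‖ := by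
  have h1 : ∑ k ∈ S, c k * (VV w y (1 + ((t + ∑ i, (k i : ℝ) * h i : ℝ) : ℂ) * Complex.I)).re =
      (∑ p ∈ prs 0 y, ((w p * (1 / (p : ℝ)) : ℝ) : ℂ) * (ee p t *
        ∑ k ∈ S, (c k : ℂ) * ee p (∑ i, (k i : ℝ) * h i))).re := by
    have h2 : ∑ p ∈ prs 0 y, ((w p * (1 / (p : ℝ)) : ℝ) : ℂ) * (ee p t *
        ∑ k ∈ S, (c k : ℂ) * ee p (∑ i, (k i : ℝ) * h i)) =
        ∑ k ∈ S, (c k : ℂ) * VV w y (1 + ((t + ∑ i, (k i : ℝ) * h i : ℝ) : ℂ) * Complex.I) := by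
      simp_rw [VV_eq, mul_sum]
      rw [sum_comm]
      apply sum_congr rfl
      intro k _
      apply sum_congr rfl
      intro p hp
      rw [mem_prs] at hp
      rw [ee_add hp.2.two_le]
      ring
    rw [h2, Complex.re_sum]
    apply sum_congr rfl
    intro k _
    rw [Complex.re_ofReal_mul]
  rw [h1]
  refine (Complex.re_le_norm _).trans ((norm_sum_le _ _).trans ?_)
  apply sum_le_sum
  intro p hp
  rw [mem_prs] at hp
  rw [norm_mul, norm_mul, norm_ee hp.2.two_le, one_mul, Complex.norm_real, Real.norm_of_nonneg]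
  exact mul_nonneg (hw p) (by positivity)

end Pool.Agent.H.MP_2e4794_nt.RP
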