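import Pool.Agent.H.MP_2e4794_nt.RP.QA
import Pool.Agent.H.MP_2e4794_nt.RP.RM

/-!
# The mean over the primes, for fixed differences
-/

namespace Pool.Agent.H.MP_2e4794_nt.RP

open Finset Filter Topology
open Pool.Agent.H.MP_2e4794_nt.RL
open Pool.Agent.H.MP_2e4794_nt.ZM (prs mem_prs prm_eq_prs RR RR_bound)

variable {m : ℕ}

/-- the polynomial at the prime `p` -/
noncomputable def Pp (S : Finset (Fin m → ℤ)) (c : (Fin m → ℤ) → ℝ) (h : Fin m → ℝ) (p : ℕ) : ℂ :=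
  ∑ k ∈ S, (c k : ℂ) * ee p (∑ i, (k i : ℝ) * h i)

/-- **The mean, for fixed differences.** -/
theorem mean_fixed (S : Finset (Fin m → ℤ)) (c : (Fin m → ℤ) → ℝ) {h : Fin m → ℝ}
    (hind : ∀ k : Fin m → ℤ, k ≠ 0 → ∑ i, (k i : ℝ) * h i ≠ 0) {ε : ℝ} (hε : 0 < ε) :
    ∃ B : ℝ, 0 ≤ B ∧ ∀ y : ℕ, 3 ≤ y →
      |∑ p ∈ prs 0 y, 1 / (p : ℝ) * ‖Pp S c h p‖ - L1 S c * Real.log (Real.log y)| ≤
        ε * Real.log (Real.log y) + B := by
  obtain ⟨K, hK⟩ := torus_even S c hε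
  have h1 : ∀ k : Fin m → ℤ, ∃ B : ℝ, 0 ≤ B ∧ (k ≠ 0 → ∀ y : ℕ,
      |∑ p ∈ prs 0 y, 1 / (p : ℝ) * (ee p (∑ i, (k i : ℝ) * h i)).re| ≤ B) := by
    intro k
    rcases eq_or_ne k 0 with rfl | hk
    · exact ⟨0, le_rfl, fun h => absurd rfl h⟩
    · obtain ⟨B, hB0, hB⟩ := cos_sum_bdd (hind k hk)
      exact ⟨B, hB0, fun _ => hB⟩
  choose b hb0 hb using h1
  obtain ⟨E, hE⟩ : ∃ E, E = ∑ k ∈ Fintype.piFinset (fun _ : Fin m => Icc (-(K : ℤ)) K), b k :=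
    ⟨_, rfl⟩
  have hE0 : 0 ≤ E := by
    rw [hE]
    exact sum_nonneg fun k _ => hb0 k
  have hL := L1_nonneg S c
  refine ⟨K * E + (ε + L1 S c) * 40, by positivity, ?_⟩
  intro y hy
  have h2 := hK (prs 0 y) (fun p => 1 / (p : ℝ)) h E hE0 (fun p _ => by positivity)
    (fun p hp => ((mem_prs.1 hp).2).ne_zero) (by
      intro k hk hj
      refine (hb k hk y).trans ?_
      rw [hE]
      apply single_le_sum (fun k _ => hb0 k)
      rw [Fintype.mem_piFinset]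
      intro j
      rw [mem_Icc]
      exact abs_le.1 (hj j))
  have h3 : |∑ p ∈ prs 0 y, 1 / (p : ℝ) - Real.log (Real.log y)| ≤ 40 := by
    have := RR_bound (N := y) (by omega)
    unfold RR Pool.MP42e49e.FF at this
    rwa [prm_eq_prs] at this
  have h4 := abs_le.1 h2
  have h5 := abs_le.1 h3
  unfold Pp
  rw [abs_le]
  constructor
  · nlinarith [h4.1, h4.2, h5.1, h5.2]
  · nlinarith [h4.1, h4.2, h5.1, h5.2]

end Pool.Agent.H.MP_2e4794_nt.RP
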