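import Pool.Agent.H.MP_2e4794_nt.RP.RM
import Pool.Agent.H.MP_2e4794_nt.ZM.MV

/-!
# Resonance: prescribed arguments of `p^{-it}`
-/

namespace Pool.Agent.H.MP_2e4794_nt.RP

open Finset Filter Topology MeasureTheory
open Pool.Agent.H.MP_2e4794_nt.RL
open Pool.Agent.H.MP_2e4794_nt.ZM (prs mem_prs abs_log_sub_ge norm_integral_exp_le)

/-- the completely multiplicative function -/
noncomputable def Om (ω : ℕ → ℂ) (v : ℕ) : ℂ := v.factorization.prod fun p k => ω p ^ k

lemma Om_mul (ω : ℕ → ℂ) {v q : ℕ} (hv : v ≠ 0) (hq : q ≠ 0) : Om ω (v * q) = Om ω v * Om ω q := by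
  unfold Om
  rw [Nat.factorization_mul hv hq, Finsupp.prod_add_index']
  · intro p
    exact pow_zero _
  · intro p a b
    exact pow_add _ _ _

lemma Om_prime (ω : ℕ → ℂ) {p : ℕ} (hp : p.Prime) : Om ω p = ω p := by
  unfold Om
  rw [hp.factorization, Finsupp.prod_single_index (h := fun p k => ω p ^ k) (pow_zero _), pow_one]

lemma Om_one (ω : ℕ → ℂ) : Om ω 1 = 1 := by
  unfold Om
  simp

lemma norm_Om {ω : ℕ → ℂ} (hω : ∀ p, ‖ω p‖ = 1) (v : ℕ) : ‖Om ω v‖ = 1 := by
  unfold Om Finsupp.prod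
  rw [norm_prod]
  apply prod_eq_one
  intro p _
  rw [norm_pow, hω, one_pow]

/-- the resonator -/
noncomputable def Rs (ω : ℕ → ℂ) (M : ℕ) (t : ℝ) : ℂ :=
  ∑ v ∈ M.divisors, Om ω v * Complex.exp (-(Real.log v * Complex.I) * t)

lemma Rs_sq (ω : ℕ → ℂ) (M : ℕ) (t : ℝ) : ((‖Rs ω M t‖ ^ 2 : ℝ) : ℂ) =
    ∑ v ∈ M.divisors, ∑ v' ∈ M.divisors, Om ω v * (starRingEnd ℂ) (Om ω v') *
      Complex.exp (-(((Real.log v - Real.log v' : ℝ) : ℂ) * Complex.I) * t) := by
  unfold Rs
  rw [Complex.ofReal_pow, ← Complex.mul_conj', map_sum, Finset.sum_mul_sum]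
  apply sum_congr rfl
  intro m _
  apply sum_congr rfl
  intro n _
  rw [map_mul, ← Complex.exp_conj]
  have h2 : (starRingEnd ℂ) (-(Real.log n * Complex.I) * t) = (Real.log n * Complex.I) * t := by
    simp only [map_mul, map_neg, Complex.conj_ofReal, Complex.conj_I]
    ring
  rw [h2]
  have h3 : Complex.exp (-(((Real.log m - Real.log n : ℝ) : ℂ) * Complex.I) * t) =
      Complex.exp (-(Real.log m * Complex.I) * t) * Complex.exp (Real.log n * Complex.I * t) := by
    rw [← Complex.exp_add]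
    congr 1
    push_cast
    ring
  rw [h3]
  ring

lemma continuous_Rs (ω : ℕ → ℂ) (M : ℕ) : Continuous (Rs ω M) := by
  unfold Rs
  fun_prop

/-- **The correlation.** -/
theorem corr {ω : ℕ → ℂ} (hω : ∀ p, ‖ω p‖ = 1) {M : ℕ} (hM : M ≠ 0) (T : ℝ) {q : ℕ}
    (hq : 1 ≤ q) :
    ‖(∫ t in T..(T + T), ((‖Rs ω M t‖ ^ 2 : ℝ) : ℂ) *
        (Om ω q * Complex.exp (-(Real.log q * Complex.I) * t))) -
      (T * ((M.divisors.filter fun v => v * q ∈ M.divisors).card : ℝ) : ℝ)‖ ≤
      (M.divisors.card : ℝ) ^ 2 * (2 * (M * q)) := by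
  obtain ⟨J, hJ⟩ : ∃ J : ℝ → ℂ, J = fun l : ℝ =>
      ∫ t in T..(T + T), Complex.exp (-((l : ℂ) * Complex.I) * t) := ⟨_, rfl⟩
  have hM1 : (1 : ℝ) ≤ M := by exact_mod_cast Nat.one_le_iff_ne_zero.2 hM
  have hq1 : (1 : ℝ) ≤ q := by exact_mod_cast hq
  have h1 : (∫ t in T..(T + T), ((‖Rs ω M t‖ ^ 2 : ℝ) : ℂ) *
        (Om ω q * Complex.exp (-(Real.log q * Complex.I) * t))) =
      ∑ v ∈ M.divisors, ∑ v' ∈ M.divisors, Om ω v * (starRingEnd ℂ) (Om ω v') * Om ω q *
        J (Real.log v + Real.log q - Real.log v') := by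
    have h2 : ∀ t : ℝ, ((‖Rs ω M t‖ ^ 2 : ℝ) : ℂ) *
        (Om ω q * Complex.exp (-(Real.log q * Complex.I) * t)) =
        ∑ v ∈ M.divisors, ∑ v' ∈ M.divisors, Om ω v * (starRingEnd ℂ) (Om ω v') * Om ω q *
          Complex.exp (-(((Real.log v + Real.log q - Real.log v' : ℝ) : ℂ) * Complex.I) * t) := by
      intro t
      rw [Rs_sq, sum_mul]
      apply sum_congr rfl
      intro v _
      rw [sum_mul]
      apply sum_congr rfl
      intro v' _
      have h3 : Complex.exp (-(((Real.log v + Real.log q - Real.log v' : ℝ) : ℂ) * Complex.I) * t) =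
          Complex.exp (-(((Real.log v - Real.log v' : ℝ) : ℂ) * Complex.I) * t) *
            Complex.exp (-(Real.log q * Complex.I) * t) := by
        rw [← Complex.exp_add]
        congr 1
        push_cast
        ring
      rw [h3]
      ring
    simp only [h2]
    rw [intervalIntegral.integral_finsetSum]
    · apply sum_congr rfl
      intro v _
      rw [intervalIntegral.integral_finsetSum]
      · apply sum_congr rfl
        intro v' _
        rw [intervalIntegral.integral_const_mul, hJ]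
      · intro v' _
        apply Continuous.intervalIntegrable
        fun_prop
    · intro v _
      apply Continuous.intervalIntegrable
      fun_prop
  have h4 : ((T * ((M.divisors.filter fun v => v * q ∈ M.divisors).card : ℝ) : ℝ) : ℂ) =
      ∑ v ∈ M.divisors, ∑ v' ∈ M.divisors, (if v' = v * q then (T : ℂ) else 0) := by
    have h5 : ∀ v ∈ M.divisors, ∑ v' ∈ M.divisors, (if v' = v * q then (T : ℂ) else 0) =
        if v * q ∈ M.divisors then (T : ℂ) else 0 := by
      intro v _
      rw [sum_ite_eq']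
    rw [sum_congr rfl h5, ← sum_filter, sum_const, nsmul_eq_mul]
    push_cast
    ring
  rw [h1, h4, ← sum_sub_distrib]
  have h6 : ∀ v ∈ M.divisors, ∀ v' ∈ M.divisors, ‖Om ω v * (starRingEnd ℂ) (Om ω v') * Om ω q *
        J (Real.log v + Real.log q - Real.log v') - (if v' = v * q then (T : ℂ) else 0)‖ ≤
        2 * (M * q) := by
    intro v hv v' hv'
    have hv0 : v ≠ 0 := (Nat.pos_of_mem_divisors hv).ne'
    have hv0' : v' ≠ 0 := (Nat.pos_of_mem_divisors hv').ne'
    have hvM := Nat.divisor_le hv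
    have hvM' := Nat.divisor_le hv'
    have hlog : Real.log v + Real.log q = Real.log ((v * q : ℕ) : ℝ) := by
      push_cast
      rw [Real.log_mul (by exact_mod_cast hv0) (by positivity)]
    rw [hlog]
    by_cases h : v' = v * q
    · rw [if_pos h, ← h, sub_self]
      have h7 : J 0 = T := by
        rw [hJ]
        simp
      rw [h7]
      have h8 : Om ω v * (starRingEnd ℂ) (Om ω v') * Om ω q = 1 := by
        rw [h, Om_mul ω hv0 (by omega), map_mul]
        have e1 : Om ω v * (starRingEnd ℂ) (Om ω v) = 1 := by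
          rw [Complex.mul_conj, Complex.normSq_eq_norm_sq, norm_Om hω]
          simp
        have e2 : Om ω q * (starRingEnd ℂ) (Om ω q) = 1 := by
          rw [Complex.mul_conj, Complex.normSq_eq_norm_sq, norm_Om hω]
          simp
        calc Om ω v * ((starRingEnd ℂ) (Om ω v) * (starRingEnd ℂ) (Om ω q)) * Om ω q =
            (Om ω v * (starRingEnd ℂ) (Om ω v)) * (Om ω q * (starRingEnd ℂ) (Om ω q)) := by ring
          _ = 1 := by rw [e1, e2, one_mul]
      rw [h8, one_mul, sub_self, norm_zero]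
      positivity
    · rw [if_neg h, sub_zero, norm_mul, norm_mul, norm_mul, RCLike.norm_conj, norm_Om hω,
        norm_Om hω, norm_Om hω, one_mul, one_mul, one_mul]
      have hvq : 1 ≤ v * q := Nat.one_le_iff_ne_zero.2 (Nat.mul_ne_zero hv0 (by omega))
      have h9 := abs_log_sub_ge (m := v * q) (n := v') (N := M * q) hvq
        (Nat.one_le_iff_ne_zero.2 hv0') (Nat.mul_le_mul_right q hvM)
        (hvM'.trans (Nat.le_mul_of_pos_right _ hq))
      have h10 : (1 : ℝ) ≤ |((v * q : ℕ) : ℝ) - v'| := by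
        have : (1 : ℤ) ≤ |((v * q : ℕ) : ℤ) - v'| := by
          apply Int.one_le_abs
          rw [sub_ne_zero]
          intro h'
          exact h (by exact_mod_cast h'.symm)
        exact_mod_cast this
      have hMq : (0 : ℝ) < ((M * q : ℕ) : ℝ) := by
        push_cast
        positivity
      have h11 : 1 / ((M * q : ℕ) : ℝ) ≤ |Real.log ((v * q : ℕ) : ℝ) - Real.log v'| :=
        (div_le_div_of_nonneg_right h10 hMq.le).trans h9
      have h12 : 0 < |Real.log ((v * q : ℕ) : ℝ) - Real.log v'| :=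
        lt_of_lt_of_le (by positivity) h11
      have h13 := norm_integral_exp_le T T (Real.log ((v * q : ℕ) : ℝ) - Real.log v')
        (abs_pos.1 h12)
      rw [hJ]
      refine h13.trans ?_
      rw [div_le_iff₀ h12]
      have h14 : 2 * (M * q) * (1 / ((M * q : ℕ) : ℝ)) = (2 : ℝ) := by
        push_cast
        field_simp
      calc (2 : ℝ) = 2 * (M * q) * (1 / ((M * q : ℕ) : ℝ)) := h14.symm
        _ ≤ _ := mul_le_mul_of_nonneg_left h11 (by positivity)
  calc ‖∑ v ∈ M.divisors, (∑ v' ∈ M.divisors, Om ω v * (starRingEnd ℂ) (Om ω v') * Om ω q *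
        J (Real.log v + Real.log q - Real.log v') -
        ∑ v' ∈ M.divisors, (if v' = v * q then (T : ℂ) else 0))‖ ≤
      ∑ v ∈ M.divisors, ∑ v' ∈ M.divisors, (2 * (M * q) : ℝ) := by
        apply norm_sum_le_of_le
        intro v hv
        rw [← sum_sub_distrib]
        apply norm_sum_le_of_le
        intro v' hv'
        exact h6 v hv v' hv'
    _ = (M.divisors.card : ℝ) ^ 2 * (2 * (M * q)) := by
        rw [sum_const, sum_const, nsmul_eq_mul, nsmul_eq_mul]
        ring

end Pool.Agent.H.MP_2e4794_nt.RP
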