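import Pool.Agent.H.MP_2e4794_nt.RP.QC

/-!
# Resonance: the conclusion
-/

namespace Pool.Agent.H.MP_2e4794_nt.RP

open Finset Filter Topology MeasureTheory
open Pool.Agent.H.MP_2e4794_nt.RL
open Pool.Agent.H.MP_2e4794_nt.ZM (prs mem_prs)

/-- the modulus of the resonator -/
def MM (P n : ℕ) : ℕ := ∏ q ∈ prs 0 P, q ^ n

lemma MM_ne_zero (P n : ℕ) : MM P n ≠ 0 := by
  unfold MM
  rw [prod_ne_zero_iff]
  intro q hq
  exact pow_ne_zero _ ((mem_prs.1 hq).2).ne_zero

lemma MM_le (P n : ℕ) : MM P n ≤ 4 ^ (P * n) := by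
  have h1 : MM P n = (primorial P) ^ n := by
    unfold MM primorial
    rw [prod_pow]
    congr 1
    apply prod_congr _ fun _ _ => rfl
    ext q
    rw [mem_prs, mem_filter, mem_range]
    constructor
    · rintro ⟨⟨_, h2⟩, h3⟩
      exact ⟨by omega, h3⟩
    · rintro ⟨h2, h3⟩
      exact ⟨⟨h3.pos, by omega⟩, h3⟩
  rw [h1, pow_mul]
  exact Nat.pow_le_pow_left (primorial_le_four_pow P) n

lemma card_div {P n p : ℕ} (hp : p ∈ prs 0 P) :
    (n + 2) * ((MM P (n + 1)).divisors.filter fun v => v * p ∈ (MM P (n + 1)).divisors).card =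
      (n + 1) * (MM P (n + 1)).divisors.card := by
  obtain ⟨M', hM'⟩ : ∃ M', M' = ∏ q ∈ (prs 0 P).erase p, q ^ (n + 1) := ⟨_, rfl⟩
  have hpp := (mem_prs.1 hp).2
  have h1 : MM P (n + 1) = p ^ (n + 1) * M' := by
    unfold MM
    rw [hM', mul_prod_erase (prs 0 P) (fun q => q ^ (n + 1)) hp]
  have hcop : ∀ k, Nat.Coprime (p ^ k) M' := by
    intro k
    apply Nat.Coprime.pow_left
    rw [hM']
    apply Nat.Coprime.prod_right
    intro q hq
    rw [mem_erase] at hq
    apply Nat.Coprime.pow_right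
    exact (Nat.coprime_primes hpp (mem_prs.1 hq.2).2).2 hq.1.symm
  have hM'0 : M' ≠ 0 := by
    intro h
    rw [h, mul_zero] at h1
    exact MM_ne_zero P (n + 1) h1
  have hc : ∀ k, (p ^ k * M').divisors.card = (k + 1) * M'.divisors.card := by
    intro k
    rw [(hcop k).card_divisors_mul, Nat.divisors_prime_pow hpp, card_map, card_range]
  have h2 : ((MM P (n + 1)).divisors.filter fun v => v * p ∈ (MM P (n + 1)).divisors) =
      (p ^ n * M').divisors := by
    ext v
    rw [mem_filter, Nat.mem_divisors, Nat.mem_divisors, Nat.mem_divisors, h1]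
    have h3 : p ^ (n + 1) * M' = (p ^ n * M') * p := by ring
    have h4 : v * p ∣ p ^ (n + 1) * M' ↔ v ∣ p ^ n * M' := by
      rw [h3]
      exact Nat.mul_dvd_mul_iff_right hpp.pos
    have h5 : p ^ n * M' ≠ 0 := mul_ne_zero (pow_ne_zero _ hpp.ne_zero) hM'0
    constructor
    · rintro ⟨_, h6, _⟩
      exact ⟨h4.1 h6, h5⟩
    · rintro ⟨h6, _⟩
      have h7 : p ^ (n + 1) * M' ≠ 0 := mul_ne_zero (pow_ne_zero _ hpp.ne_zero) hM'0
      refine ⟨⟨?_, h7⟩, h4.2 h6, h7⟩
      rw [h3]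
      exact h6.trans (Dvd.intro _ rfl)
  rw [h2, hc, h1, hc]
  ring

/-- **Resonance.** -/
theorem resonance {P n : ℕ} {ω : ℕ → ℂ} (hω : ∀ p, ‖ω p‖ = 1) {a : ℕ → ℝ} (ha : ∀ p, 0 ≤ a p)
    {T η : ℝ} (hη : 0 < η) (hη1 : η ≤ 1) (hn : 1 / ((n : ℝ) + 2) ≤ η / 4)
    (hTM : 8 * (MM P (n + 1) : ℝ) ^ 2 * P ≤ η * T) :
    ∃ t ∈ Set.Icc T (T + T), (1 - η) * ∑ p ∈ prs 0 P, a p ≤
      ∑ p ∈ prs 0 P, a p * (ω p * ee p t).re := by
  by_contra hcon
  push Not at hcon
  obtain ⟨M, hM⟩ : ∃ M, M = MM P (n + 1) := ⟨_, rfl⟩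
  rw [← hM] at hTM
  have hM0 : M ≠ 0 := hM ▸ MM_ne_zero P (n + 1)
  have hM1 : (1 : ℝ) ≤ M := by exact_mod_cast Nat.one_le_iff_ne_zero.2 hM0
  obtain ⟨A, hA⟩ : ∃ A, A = ∑ p ∈ prs 0 P, a p := ⟨_, rfl⟩
  have hA0 : 0 ≤ A := by
    rw [hA]
    exact sum_nonneg fun p _ => ha p
  rw [← hA] at hcon
  have hT0 : 0 ≤ T := by
    have h1 : 0 ≤ 8 * (M : ℝ) ^ 2 * P := by positivity
    nlinarith
  rcases hA0.eq_or_lt with hA1 | hA1
  · -- no weight
    have h1 := hcon T ⟨le_rfl, by linarith⟩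
    have h2 : ∀ p ∈ prs 0 P, a p = 0 :=
      (sum_eq_zero_iff_of_nonneg (fun p _ => ha p)).1 (hA ▸ hA1.symm)
    rw [sum_eq_zero (fun p hp => by rw [h2 p hp, zero_mul]), ← hA1, mul_zero] at h1
    exact lt_irrefl _ h1
  have hP1 : 1 ≤ P := by
    by_contra h
    have hP0 : P = 0 := by omega
    have : prs 0 P = ∅ := by
      ext p
      rw [mem_prs, hP0]
      simp only [notMem_empty, iff_false]
      omega
    rw [this, sum_empty] at hA
    linarith
  have hP1' : (1 : ℝ) ≤ P := by exact_mod_cast hP1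
  obtain ⟨τ, hτ⟩ : ∃ τ : ℝ, τ = (M.divisors.card : ℝ) := ⟨_, rfl⟩
  have hτ1 : 1 ≤ τ := by
    rw [hτ]
    have : 0 < M.divisors.card := card_pos.2 ⟨1, Nat.one_mem_divisors.2 hM0⟩
    exact_mod_cast this
  have hτM : τ ≤ M := by
    rw [hτ]
    exact_mod_cast Nat.card_divisors_le_self M
  have hcontR := continuous_Rs ω M
  -- the mean square
  have hsq : ∫ t in T..(T + T), ‖Rs ω M t‖ ^ 2 ≤ T * τ + τ ^ 2 * (2 * M) := by
    have h1 := corr hω hM0 T (q := 1) le_rfl
    have h2 : (∫ t in T..(T + T), ((‖Rs ω M t‖ ^ 2 : ℝ) : ℂ) *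
        (Om ω 1 * Complex.exp (-(Real.log ((1 : ℕ) : ℝ) * Complex.I) * t))) =
        ((∫ t in T..(T + T), ‖Rs ω M t‖ ^ 2 : ℝ) : ℂ) := by
      rw [← intervalIntegral.integral_ofReal]
      congr 1
      ext t
      rw [Om_one]
      simp
    have h3 : (M.divisors.filter fun v => v * 1 ∈ M.divisors) = M.divisors := by
      apply filter_true_of_mem
      intro v hv
      rwa [mul_one]
    rw [h2, h3, ← hτ, ← Complex.ofReal_sub, Complex.norm_real, Real.norm_eq_abs] at h1
    have h4 := (abs_le.1 h1).2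
    push_cast at h4
    linarith
  -- the correlations
  have hcor : ∀ p ∈ prs 0 P, T * τ * (1 - η / 4) - τ ^ 2 * (2 * (M * P)) ≤
      ∫ t in T..(T + T), ‖Rs ω M t‖ ^ 2 * (ω p * ee p t).re := by
    intro p hp
    have hpp := (mem_prs.1 hp)
    have h1 := corr hω hM0 T (q := p) hpp.2.one_le
    have h2 : (∫ t in T..(T + T), ((‖Rs ω M t‖ ^ 2 : ℝ) : ℂ) *
        (Om ω p * Complex.exp (-(Real.log p * Complex.I) * t))).re =
        ∫ t in T..(T + T), ‖Rs ω M t‖ ^ 2 * (ω p * ee p t).re := by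
      have h3 : ∀ t : ℝ, Complex.exp (-(Real.log p * Complex.I) * t) = ee p t := by
        intro t
        unfold ee
        rw [Complex.cpow_def_of_ne_zero (by exact_mod_cast hpp.2.ne_zero), ← Complex.natCast_log]
        congr 1
        ring
      have h4 : Continuous fun t : ℝ => ((‖Rs ω M t‖ ^ 2 : ℝ) : ℂ) *
          (Om ω p * Complex.exp (-(Real.log p * Complex.I) * t)) := by fun_prop
      have h5 := (Complex.reCLM.intervalIntegral_comp_comm (μ := volume)
        (h4.intervalIntegrable T (T + T)))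
      rw [Complex.reCLM_apply] at h5
      rw [← h5]
      congr 1
      ext t
      rw [Complex.reCLM_apply, Complex.re_ofReal_mul, h3, Om_prime ω hpp.2]
    have h6 := (abs_le.1 ((Complex.abs_re_le_norm _).trans h1)).1
    rw [Complex.sub_re, h2, Complex.ofReal_re, ← hτ] at h6
    have h7 : T * τ * (1 - η / 4) ≤
        T * ((M.divisors.filter fun v => v * p ∈ M.divisors).card : ℝ) := by
      have h8 := card_div (n := n) hp
      rw [← hM] at h8
      have h9 : ((n : ℝ) + 2) * ((M.divisors.filter fun v => v * p ∈ M.divisors).card : ℝ) =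
          ((n : ℝ) + 1) * τ := by
        rw [hτ]
        exact_mod_cast h8
      have h10 : ((M.divisors.filter fun v => v * p ∈ M.divisors).card : ℝ) =
          τ * (1 - 1 / ((n : ℝ) + 2)) := by
        field_simp
        linarith
      rw [h10, mul_assoc]
      apply mul_le_mul_of_nonneg_left _ hT0
      apply mul_le_mul_of_nonneg_left _ (by linarith)
      linarith
    have h11 : τ ^ 2 * (2 * (M * p)) ≤ τ ^ 2 * (2 * (M * P)) := by
      have : (p : ℝ) ≤ P := by exact_mod_cast hpp.1.2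
      gcongr
    linarith
  -- the contradiction
  have hup : ∫ t in T..(T + T), ‖Rs ω M t‖ ^ 2 * (∑ p ∈ prs 0 P, a p * (ω p * ee p t).re) ≤
      ∫ t in T..(T + T), ‖Rs ω M t‖ ^ 2 * ((1 - η) * A) := by
    apply intervalIntegral.integral_mono_on (by linarith)
    · apply Continuous.intervalIntegrable
      have : ∀ p ∈ prs 0 P, Continuous fun t : ℝ => ee p t := by
        intro p hp
        unfold ee
        have h0 : (p : ℂ) ≠ 0 := by exact_mod_cast ((mem_prs.1 hp).2).ne_zero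
        exact Continuous.const_cpow (by fun_prop) (Or.inl h0)
      apply Continuous.mul (by fun_prop)
      apply continuous_finsetSum
      intro p hp
      have := this p hp
      fun_prop
    · apply Continuous.intervalIntegrable
      fun_prop
    · intro t ht
      apply mul_le_mul_of_nonneg_left (hcon t ht).le (by positivity)
  have hlo : A * (T * τ * (1 - η / 4) - τ ^ 2 * (2 * (M * P))) ≤
      ∫ t in T..(T + T), ‖Rs ω M t‖ ^ 2 * (∑ p ∈ prs 0 P, a p * (ω p * ee p t).re) := by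
    have h1 : ∫ t in T..(T + T), ‖Rs ω M t‖ ^ 2 * (∑ p ∈ prs 0 P, a p * (ω p * ee p t).re) =
        ∑ p ∈ prs 0 P, a p * ∫ t in T..(T + T), ‖Rs ω M t‖ ^ 2 * (ω p * ee p t).re := by
      simp_rw [mul_sum]
      rw [intervalIntegral.integral_finsetSum]
      · apply sum_congr rfl
        intro p _
        rw [← intervalIntegral.integral_const_mul]
        congr 1
        ext t
        ring
      · intro p hp
        apply Continuous.intervalIntegrable
        have h0 : (p : ℂ) ≠ 0 := by exact_mod_cast ((mem_prs.1 hp).2).ne_zero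
        have : Continuous fun t : ℝ => ee p t := by
          unfold ee
          exact Continuous.const_cpow (by fun_prop) (Or.inl h0)
        fun_prop
    rw [h1, hA, sum_mul]
    apply sum_le_sum
    intro p hp
    exact mul_le_mul_of_nonneg_left (hcor p hp) (ha p)
  rw [intervalIntegral.integral_mul_const] at hup
  have h1 : (∫ t in T..(T + T), ‖Rs ω M t‖ ^ 2) * ((1 - η) * A) ≤
      (T * τ + τ ^ 2 * (2 * M)) * ((1 - η) * A) :=
    mul_le_mul_of_nonneg_right hsq (mul_nonneg (by linarith) hA0)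
  have h2 : A * (T * τ * (1 - η / 4) - τ ^ 2 * (2 * (M * P))) ≤
      A * ((T * τ + τ ^ 2 * (2 * M)) * (1 - η)) := by linarith
  have h3 := le_of_mul_le_mul_left h2 hA1
  have h4 : τ ^ 2 * (2 * (M * P)) ≤ τ * (η * T / 4) := by
    have h5 : τ * (2 * (M * P)) ≤ η * T / 4 := by
      have : τ * (2 * (M * P)) ≤ M * (2 * (M * P)) := by gcongr
      nlinarith
    calc τ ^ 2 * (2 * (M * P)) = τ * (τ * (2 * (M * P))) := by ring
      _ ≤ τ * (η * T / 4) := mul_le_mul_of_nonneg_left h5 (by linarith)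
  have h6 : τ ^ 2 * (2 * M) ≤ τ * (η * T / 4) := by
    refine le_trans ?_ h4
    have : (M : ℝ) ≤ M * P := by nlinarith
    gcongr
  have h7 : 0 < T := by
    rcases hT0.eq_or_lt with h | h
    · exfalso
      rw [← h, mul_zero] at hTM
      have : 0 < 8 * (M : ℝ) ^ 2 * P := by positivity
      linarith
    · exact h
  have h8 : (T * τ + τ ^ 2 * (2 * M)) * (1 - η) ≤ (T * τ + τ * (η * T / 4)) * (1 - η) := by
    apply mul_le_mul_of_nonneg_right _ (by linarith)
    linarith
  have h9 : 0 < T * τ := by positivity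
  have h10 : T * τ * (1 - η / 4) - τ * (η * T / 4) ≤ (T * τ + τ * (η * T / 4)) * (1 - η) := by
    linarith
  have h11 : T * τ * (1 - η / 4) - τ * (η * T / 4) - (T * τ + τ * (η * T / 4)) * (1 - η) =
      T * τ * (η / 4 + η ^ 2 / 4) := by ring
  have h12 : 0 < T * τ * (η / 4 + η ^ 2 / 4) := by positivity
  linarith

end Pool.Agent.H.MP_2e4794_nt.RP
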