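import Pool.Agent.H.MP_2e4794_nt.RP.QB
import Pool.Agent.H.MP_2e4794_nt.RL.EV

/-!
# The zeta function and the primes up to `sqrt (log T)`, under RH
-/

namespace Pool.Agent.H.MP_2e4794_nt.RP

open Finset Filter Topology
open Pool.Agent.H.MP_2e4794_nt.RL
open Pool.Agent.H.MP_2e4794_nt.ZM (prs mem_prs)

/-- the length of the sums -/
noncomputable def YT (T : ℝ) : ℕ := ⌈Real.log T ^ (1 / 2 : ℝ)⌉₊

lemma SY_sum (y : ℕ) (t : ℝ) :
    |(SY y (1 + t * Complex.I)).re - ∑ p ∈ prs 0 y, 1 / (p : ℝ) * (ee p t).re| ≤ B2 := by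
  have h1 := (Complex.abs_re_le_norm _).trans (SY_near y (z := 1 + t * Complex.I) (by simp))
  have h2 : (∑ p ∈ prs 0 y, (p : ℂ) ^ (-((1 : ℂ) + t * Complex.I))).re =
      ∑ p ∈ prs 0 y, 1 / (p : ℝ) * (ee p t).re := by
    rw [Complex.re_sum]
    apply sum_congr rfl
    intro p hp
    rw [mem_prs] at hp
    rw [pcpow_eq hp.2.two_le, Complex.re_ofReal_mul]
  rw [Complex.sub_re, h2] at h1
  exact h1

lemma norm_VV_le {w : ℕ → ℝ} (hw : ∀ p, 0 ≤ w p) (y : ℕ) (t : ℝ) :
    ‖VV w y (1 + t * Complex.I)‖ ≤ ∑ p ∈ prs 0 y, w p * (1 / (p : ℝ)) := by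
  rw [VV_eq]
  apply norm_sum_le_of_le
  intro p hp
  rw [mem_prs] at hp
  rw [norm_mul, norm_ee hp.2.two_le, mul_one, Complex.norm_real, Real.norm_of_nonneg]
  exact mul_nonneg (hw p) (by positivity)

/-- **The crude approximation, under RH.** -/
theorem crude (RH : RiemannHypothesis) : ∃ B T0 : ℝ, 0 ≤ B ∧ 16 ≤ T0 ∧ ∀ T t : ℝ, T0 ≤ T →
    T / 2 ≤ t → t ≤ 4 * T →
      |Real.log ‖riemannZeta (1 + t * Complex.I)‖ -
        ∑ p ∈ prs 0 (YT T), 1 / (p : ℝ) * (ee p t).re| ≤ B := by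
  obtain ⟨K, U0, Y0, hK, hU0, hY0, hpack⟩ := package RH (δ := 1) one_pos le_rfl
  have hev : ∀ᶠ T : ℝ in atTop, 16 ≤ T ∧ 2 * U0 ≤ T ∧ 4 ≤ Real.log (Real.log T) ∧
      Y0 ≤ YT T := by
    have h1 : Tendsto (fun T : ℝ => YT T) atTop atTop :=
      tendsto_nat_ceil_atTop.comp ((tendsto_rpow_atTop (by norm_num)).comp Real.tendsto_log_atTop)
    filter_upwards [eventually_ge_atTop 16, eventually_ge_atTop (2 * U0),
      tendsto_loglog.eventually_ge_atTop 4, h1.eventually_ge_atTop Y0] with T a b c d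
    exact ⟨a, b, c, d⟩
  obtain ⟨T0, hT0⟩ := eventually_atTop.1 hev
  refine ⟨B2 + 15 + 2 * K, max T0 16, by linarith [B2_nonneg], le_max_right _ _, ?_⟩
  intro T t hT ht1 ht2
  obtain ⟨h16, hU, hX, hYY⟩ := hT0 T ((le_max_left _ _).trans hT)
  obtain ⟨X, hXe⟩ : ∃ X, X = Real.log (Real.log T) := ⟨_, rfl⟩
  rw [← hXe] at hX
  have hlT : 1 < Real.log T := by
    rw [Real.lt_log_iff_exp_lt (by linarith)]
    linarith [Real.exp_one_lt_d9]
  have hl4 : Real.log T ≤ Real.log (4 * T) := Real.log_le_log (by linarith) (by linarith)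
  obtain ⟨Y, hY⟩ : ∃ Y, Y = YT T := ⟨_, rfl⟩
  obtain ⟨y, hy⟩ : ∃ y, y = ⌈Real.log (4 * T) ^ ((2 : ℝ) + 1)⌉₊ := ⟨_, rfl⟩
  have hYy : Y ≤ y := by
    rw [hY, hy]
    apply Nat.ceil_mono
    calc Real.log T ^ (1 / 2 : ℝ) ≤ Real.log (4 * T) ^ (1 / 2 : ℝ) :=
          Real.rpow_le_rpow (by linarith) hl4 (by norm_num)
      _ ≤ Real.log (4 * T) ^ ((2 : ℝ) + 1) :=
          Real.rpow_le_rpow_of_exponent_le (by linarith) (by norm_num)
  rw [← hY] at hYY
  rw [← hY]
  obtain ⟨w, hw0, hwW, -, hwt⟩ := hpack Y y hYY hYy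
  have hY16 : 16 ≤ Y := hY0.trans hYY
  have hY16' : (16 : ℝ) ≤ Y := by exact_mod_cast hY16
  have hYy' : (Y : ℝ) ≤ y := by exact_mod_cast hYy
  have hlY : X / 2 ≤ Real.log Y := by
    have := log_ceil_ge (r := 1 / 2) (v := Real.log T) (by linarith)
    rw [hY]
    unfold YT
    rw [← hXe] at this
    linarith
  have hlY2 : 2 ≤ Real.log Y := by linarith
  have hly : Real.log y ≤ 4 * X := by
    have h1 := log_ceil_le (r := 2 + 1) (v := Real.log (4 * T)) (by norm_num) (by linarith)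
    rw [← hy] at h1
    have h2 : Real.log (4 * T) ≤ 2 * Real.log T := by
      rw [Real.log_mul (by norm_num) (by linarith)]
      have := Real.log_le_log (by norm_num : (0 : ℝ) < 4) (by linarith : (4 : ℝ) ≤ T)
      linarith
    have h3 : Real.log (Real.log (4 * T)) ≤ Real.log 2 + X := by
      rw [hXe, ← Real.log_mul (by norm_num) (by linarith)]
      exact Real.log_le_log (by linarith) h2
    have := Real.log_two_lt_d9
    linarith
  have hLy0 : 0 < Real.log y := Real.log_pos (by linarith)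
  have hW : ∑ p ∈ prs 0 y, w p * (1 / (p : ℝ)) ≤ 15 + K := by
    have h1 := (abs_le.1 (WW_window (by omega) hYy)).2
    have h2 : Real.log (Real.log y) ≤ Real.log (4 * X) := Real.log_le_log hLy0 hly
    have h3 : Real.log (X / 2) ≤ Real.log (Real.log Y) := Real.log_le_log (by linarith) hlY
    have h4 : Real.log (4 * X) - Real.log (X / 2) = Real.log 8 := by
      rw [← Real.log_div (by linarith) (by linarith)]
      congr 1
      field_simp
      norm_num
    have h5 : Real.log 8 ≤ 3 := by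
      have : Real.log 8 = 3 * Real.log 2 := by
        rw [show (8 : ℝ) = 2 ^ 3 by norm_num, Real.log_pow]
        norm_num
      have := Real.log_two_lt_d9
      linarith
    have h6 : 12 / Real.log Y ≤ 12 := by
      rw [div_le_iff₀ (by linarith)]
      linarith
    have h7 : K / Real.sqrt (Real.log Y) ≤ K := by
      apply div_le_self hK.le
      rw [Real.one_le_sqrt]
      linarith
    linarith
  obtain ⟨z, hz1, hz2⟩ := hwt t (by linarith) (by
    refine le_trans ?_ (hy ▸ Nat.le_ceil _)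
    apply Real.rpow_le_rpow (Real.log_nonneg (by linarith)) _ (by norm_num)
    exact Real.log_le_log (by linarith) ht2)
  have hz3 : ‖z‖ ≤ K := by
    refine hz1.trans ?_
    apply div_le_self hK.le
    rw [Real.one_le_sqrt]
    linarith
  rw [hz2, Complex.norm_exp, Real.log_exp, Complex.add_re, Complex.add_re]
  have a1 := abs_le.1 (SY_sum Y t)
  have a2 := abs_le.1 ((Complex.abs_re_le_norm _).trans ((norm_VV_le hw0 y t).trans hW))
  have a3 := abs_le.1 ((Complex.abs_re_le_norm z).trans hz3)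
  rw [abs_le]
  constructor <;> linarith [a1.1, a1.2, a2.1, a2.2, a3.1, a3.2]

end Pool.Agent.H.MP_2e4794_nt.RP
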