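import Pool.Agent.H.MP_2e4794_nt.RP.QE
import Pool.Agent.H.MP_2e4794_nt.RP.QD

/-!
# The exact exponent, for fixed differences, under RH
-/

namespace Pool.Agent.H.MP_2e4794_nt.RP

open Finset Filter Topology
open Pool.Agent.H.MP_2e4794_nt.RL
open Pool.Agent.H.MP_2e4794_nt.ZM (prs mem_prs)

variable {m : ℕ}

/-- the sum over the points, for the primes up to `y` -/
lemma sum_points (S : Finset (Fin m → ℤ)) (c : (Fin m → ℤ) → ℝ) (y : ℕ) (h : Fin m → ℝ) (t : ℝ) :
    ∑ k ∈ S, c k * ∑ p ∈ prs 0 y, 1 / (p : ℝ) * (ee p (t + ∑ i, (k i : ℝ) * h i)).re =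
      ∑ p ∈ prs 0 y, 1 / (p : ℝ) * (Pp S c h p * ee p t).re := by
  simp_rw [mul_sum]
  rw [sum_comm]
  apply sum_congr rfl
  intro p hp
  rw [mem_prs] at hp
  have h1 : Pp S c h p * ee p t = ∑ k ∈ S, (c k : ℂ) * ee p (t + ∑ i, (k i : ℝ) * h i) := by
    unfold Pp
    rw [sum_mul]
    apply sum_congr rfl
    intro k _
    rw [ee_add hp.2.two_le]
    ring
  rw [h1, Complex.re_sum, mul_sum]
  apply sum_congr rfl
  intro k _
  rw [Complex.re_ofReal_mul]
  ring

lemma ev_sqrt (c D : ℝ) : ∀ᶠ L : ℝ in atTop, c * L ^ (1 / 2 : ℝ) + D ≤ L := by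
  filter_upwards [eventually_ge_atTop (2 * D), eventually_ge_atTop ((2 * |c|) ^ 2),
    eventually_gt_atTop 0] with L h1 h2 h3
  rw [← Real.sqrt_eq_rpow]
  have h4 : 2 * |c| ≤ Real.sqrt L := Real.le_sqrt_of_sq_le h2
  have h5 : Real.sqrt L * Real.sqrt L = L := Real.mul_self_sqrt h3.le
  have h6 : 0 ≤ Real.sqrt L := Real.sqrt_nonneg L
  have h7 : c * Real.sqrt L ≤ |c| * Real.sqrt L := mul_le_mul_of_nonneg_right (le_abs_self c) h6
  have h8 : 2 * |c| * Real.sqrt L ≤ L := by nlinarith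
  linarith

/-- the length of the resonator is admissible -/
lemma ev_MM (n : ℕ) {η : ℝ} (hη : 0 < η) : ∀ᶠ T : ℝ in atTop,
    8 * (MM (YT T) (n + 1) : ℝ) ^ 2 * (YT T : ℝ) ≤ η * T := by
  obtain ⟨c, hc⟩ : ∃ c : ℝ, c = 2 * (n + 1) * Real.log 4 + 1 := ⟨_, rfl⟩
  have hc0 : 0 < c := by
    rw [hc]
    have := Real.log_pos (by norm_num : (1 : ℝ) < 4)
    positivity
  have h1 := Real.tendsto_log_atTop.eventually (ev_sqrt (2 * c) (Real.log 8 - Real.log η))
  filter_upwards [h1, eventually_ge_atTop (Real.exp 1)] with T h2 h3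
  have hT0 : 0 < T := (Real.exp_pos 1).trans_le h3
  have hL1 : 1 ≤ Real.log T := by
    rw [Real.le_log_iff_exp_le hT0]
    exact h3
  obtain ⟨P, hP⟩ : ∃ P, P = YT T := ⟨_, rfl⟩
  rw [← hP]
  have hP2 : (P : ℝ) ≤ 2 * Real.log T ^ (1 / 2 : ℝ) := by
    rw [hP]
    unfold YT
    have h4 : (1 : ℝ) ≤ Real.log T ^ (1 / 2 : ℝ) := Real.one_le_rpow hL1 (by norm_num)
    have h5 := Nat.ceil_lt_add_one (show 0 ≤ Real.log T ^ (1 / 2 : ℝ) by linarith)
    linarith
  have hM : (MM P (n + 1) : ℝ) ≤ Real.exp (P * (n + 1) * Real.log 4) := by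
    have h4 : (MM P (n + 1) : ℝ) ≤ (4 : ℝ) ^ (P * (n + 1)) := by exact_mod_cast MM_le P (n + 1)
    refine h4.trans (le_of_eq ?_)
    rw [← Real.rpow_natCast, Real.rpow_def_of_pos (by norm_num)]
    congr 1
    push_cast
    ring
  have hPe : (P : ℝ) ≤ Real.exp P := by linarith [Real.add_one_le_exp (P : ℝ)]
  calc 8 * (MM P (n + 1) : ℝ) ^ 2 * (P : ℝ) ≤
      8 * (Real.exp (P * (n + 1) * Real.log 4)) ^ 2 * Real.exp P := by gcongr
    _ = 8 * Real.exp (c * P) := by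
        rw [← Real.exp_nat_mul, mul_assoc, ← Real.exp_add, hc]
        congr 2
        push_cast
        ring
    _ ≤ 8 * Real.exp (2 * c * Real.log T ^ (1 / 2 : ℝ)) := by
        apply mul_le_mul_of_nonneg_left _ (by norm_num)
        apply Real.exp_le_exp.2
        calc c * P ≤ c * (2 * Real.log T ^ (1 / 2 : ℝ)) := mul_le_mul_of_nonneg_left hP2 hc0.le
          _ = 2 * c * Real.log T ^ (1 / 2 : ℝ) := by ring
    _ ≤ 8 * Real.exp (Real.log T - (Real.log 8 - Real.log η)) := by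
        apply mul_le_mul_of_nonneg_left _ (by norm_num)
        apply Real.exp_le_exp.2
        linarith
    _ = η * T := by
        rw [Real.exp_sub, Real.exp_sub, Real.exp_log hT0, Real.exp_log (by norm_num),
          Real.exp_log hη]
        field_simp

lemma YT_bounds {T : ℝ} (hT : 4 ≤ Real.log (Real.log T)) (hT1 : 1 < T) : 3 ≤ YT T ∧
    Real.log (Real.log (Real.log T)) - 1 ≤ Real.log (Real.log (YT T)) ∧
    Real.log (Real.log (YT T)) ≤ Real.log (Real.log (Real.log T)) := by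
  obtain ⟨X, hX⟩ : ∃ X, X = Real.log (Real.log T) := ⟨_, rfl⟩
  rw [← hX] at hT ⊢
  have hL0 : 0 < Real.log T := Real.log_pos hT1
  have hL : Real.exp 4 ≤ Real.log T := by
    rw [← Real.le_log_iff_exp_le hL0, ← hX]
    exact hT
  have he : (5 : ℝ) ≤ Real.exp 4 := by linarith [Real.add_one_le_exp (4 : ℝ)]
  have h1 := log_ceil_ge (r := 1 / 2) (v := Real.log T) hL0
  have h2 := log_ceil_le (r := 1 / 2) (v := Real.log T) (by norm_num) (by linarith)
  rw [← hX] at h1 h2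
  have hl2 := Real.log_two_lt_d9
  have h3 : X / 2 ≤ Real.log (YT T) := by
    unfold YT
    linarith
  have h4 : Real.log (YT T) ≤ X := by
    unfold YT
    linarith
  refine ⟨?_, ?_, Real.log_le_log (by linarith) h4⟩
  · by_contra h
    have h5 : (YT T : ℝ) ≤ 2 := by exact_mod_cast (by omega : YT T ≤ 2)
    have h6 : Real.log (YT T) ≤ Real.log 2 := by
      rcases (YT T).eq_zero_or_pos with h7 | h7
      · rw [h7]
        simp only [Nat.cast_zero, Real.log_zero]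
        exact Real.log_nonneg (by norm_num)
      · exact Real.log_le_log (by exact_mod_cast h7) h5
    linarith
  · have h5 : Real.log (X / 2) ≤ Real.log (Real.log (YT T)) := Real.log_le_log (by linarith) h3
    rw [Real.log_div (by linarith) (by norm_num)] at h5
    linarith

/-- **The exact exponent, under RH.** -/
theorem exact_exponent (RH : RiemannHypothesis) (S : Finset (Fin m → ℤ)) (c : (Fin m → ℤ) → ℝ)
    {h : Fin m → ℝ} (hind : ∀ k : Fin m → ℤ, k ≠ 0 → ∑ i, (k i : ℝ) * h i ≠ 0)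
    {ε : ℝ} (hε : 0 < ε) :
    ∃ T0 : ℝ, ∀ T : ℝ, T0 ≤ T →
      (∀ t ∈ Set.Icc T (2 * T), ∑ k ∈ S, c k * Real.log ‖riemannZeta
          (1 + ((t + ∑ i, (k i : ℝ) * h i : ℝ) : ℂ) * Complex.I)‖ ≤
        (L1 S c + ε) * Real.log (Real.log (Real.log T))) ∧
      ∃ t ∈ Set.Icc T (2 * T), (L1 S c - ε) * Real.log (Real.log (Real.log T)) ≤
        ∑ k ∈ S, c k * Real.log ‖riemannZeta
          (1 + ((t + ∑ i, (k i : ℝ) * h i : ℝ) : ℂ) * Complex.I)‖ := by
  obtain ⟨B, T1, hB0, hT1, hcr⟩ := crude RH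
  obtain ⟨A, hA⟩ : ∃ A, A = ∑ k ∈ S, |c k| := ⟨_, rfl⟩
  have hA0 : 0 ≤ A := by
    rw [hA]
    exact sum_nonneg fun _ _ => abs_nonneg _
  have hL := L1_nonneg S c
  obtain ⟨η, hη⟩ : ∃ η : ℝ, η = min 1 (ε / (4 * (L1 S c + 1))) := ⟨_, rfl⟩
  have hη0 : 0 < η := by
    rw [hη]
    exact lt_min one_pos (by positivity)
  have hη1 : η ≤ 1 := hη ▸ min_le_left _ _
  have hηL : η * L1 S c ≤ ε / 4 := by
    have h1 : η ≤ ε / (4 * (L1 S c + 1)) := hη ▸ min_le_right _ _
    calc η * L1 S c ≤ ε / (4 * (L1 S c + 1)) * (L1 S c + 1) := by gcongr; linarith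
      _ = ε / 4 := by field_simp
  obtain ⟨B', hB'0, hmean⟩ := mean_fixed S c hind (ε := ε / 4) (by linarith)
  obtain ⟨n, hn⟩ : ∃ n : ℕ, 1 / ((n : ℝ) + 2) ≤ η / 4 := by
    obtain ⟨n, hn⟩ := exists_nat_ge (4 / η)
    refine ⟨n, ?_⟩
    rw [div_le_div_iff₀ (by positivity) (by norm_num)]
    rw [div_le_iff₀ hη0] at hn
    nlinarith
  -- the size of the differences
  obtain ⟨N, hN⟩ : ∃ N : ℝ, N = ∑ k ∈ S, |∑ i, (k i : ℝ) * h i| := ⟨_, rfl⟩
  have hNk : ∀ k ∈ S, |∑ i, (k i : ℝ) * h i| ≤ N := by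
    intro k hk
    rw [hN]
    exact single_le_sum (f := fun k : Fin m → ℤ => |∑ i, (k i : ℝ) * h i|)
      (fun _ _ => abs_nonneg _) hk
  have hlll : Tendsto (fun T : ℝ => Real.log (Real.log (Real.log T))) atTop atTop :=
    Real.tendsto_log_atTop.comp tendsto_loglog
  have hev := ((((eventually_ge_atTop T1).and (eventually_ge_atTop (2 * N))).and
    ((tendsto_loglog.eventually_ge_atTop 4).and (eventually_gt_atTop 1))).and
    ((ev_MM n hη0).and (hlll.eventually_ge_atTop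
      ((4 / ε) * (2 * B' + A * B + L1 S c + ε)))))
  obtain ⟨T0, hT0⟩ := eventually_atTop.1 hev
  refine ⟨T0, ?_⟩
  intro T hT
  obtain ⟨⟨⟨hTT1, hTN⟩, hX4, h1T⟩, hMM, hXX⟩ := hT0 T hT
  obtain ⟨x, hx⟩ : ∃ x, x = Real.log (Real.log (Real.log T)) := ⟨_, rfl⟩
  rw [← hx] at hXX ⊢
  obtain ⟨y, hy⟩ : ∃ y, y = YT T := ⟨_, rfl⟩
  obtain ⟨hy3, hy4, hy5⟩ := YT_bounds hX4 h1T
  rw [← hy] at hy3 hy4 hy5 hMM
  rw [← hx] at hy4 hy5
  have hm := abs_le.1 (hmean y hy3)
  obtain ⟨D, hD⟩ : ∃ D, D = ∑ p ∈ prs 0 y, 1 / (p : ℝ) * ‖Pp S c h p‖ := ⟨_, rfl⟩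
  rw [← hD] at hm
  have hsmall : 2 * B' + A * B + L1 S c + ε ≤ ε / 4 * x := by
    have h1 := mul_le_mul_of_nonneg_left hXX (by positivity : 0 ≤ ε / 4)
    have h2 : ε / 4 * (4 / ε * (2 * B' + A * B + L1 S c + ε)) = 2 * B' + A * B + L1 S c + ε := by
      field_simp
    linarith
  have hx0 : 0 ≤ x := by
    have h1 : 0 ≤ 2 * B' + A * B + L1 S c + ε := by positivity
    have h2 : 0 ≤ ε / 4 * x := h1.trans hsmall
    by_contra h
    push Not at h
    have : ε / 4 * x < 0 := mul_neg_of_pos_of_neg (by linarith) h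
    linarith
  -- the comparison
  have hcomp : ∀ t ∈ Set.Icc T (2 * T), |∑ k ∈ S, c k * Real.log ‖riemannZeta
      (1 + ((t + ∑ i, (k i : ℝ) * h i : ℝ) : ℂ) * Complex.I)‖ -
      ∑ p ∈ prs 0 y, 1 / (p : ℝ) * (Pp S c h p * ee p t).re| ≤ A * B := by
    intro t ht
    rw [← sum_points, ← sum_sub_distrib, hA, sum_mul]
    refine (abs_sum_le_sum_abs _ _).trans (sum_le_sum fun k hk => ?_)
    rw [← mul_sub, abs_mul]
    apply mul_le_mul_of_nonneg_left _ (abs_nonneg _)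
    have h1 := abs_le.1 (hNk k hk)
    rw [hy]
    exact hcr T _ hTT1 (by linarith [ht.1, h1.1]) (by linarith [ht.2, h1.2])
  constructor
  · intro t ht
    have h1 := (abs_le.1 (hcomp t ht)).2
    have h2 : ∑ p ∈ prs 0 y, 1 / (p : ℝ) * (Pp S c h p * ee p t).re ≤ D := by
      rw [hD]
      apply sum_le_sum
      intro p hp
      apply mul_le_mul_of_nonneg_left _ (by positivity)
      refine (Complex.re_le_norm _).trans ?_
      rw [norm_mul, norm_ee ((mem_prs.1 hp).2).two_le, mul_one]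
    have h3 : L1 S c * Real.log (Real.log y) ≤ L1 S c * x := mul_le_mul_of_nonneg_left hy5 hL
    have h4 : ε / 4 * Real.log (Real.log y) ≤ ε / 4 * x :=
      mul_le_mul_of_nonneg_left hy5 (by linarith)
    have h5 : 0 ≤ ε / 4 * x := by positivity
    linarith [hm.2]
  · obtain ⟨ω, hω⟩ : ∃ ω : ℕ → ℂ, ω = fun p => if Pp S c h p = 0 then 1 else
      Pp S c h p / (‖Pp S c h p‖ : ℂ) := ⟨_, rfl⟩
    have hω1 : ∀ p, ‖ω p‖ = 1 := by
      intro p
      rw [hω]
      simp only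
      split_ifs with h1
      · exact norm_one
      · rw [norm_div, Complex.norm_real, norm_norm, div_self (norm_ne_zero_iff.2 h1)]
    obtain ⟨t, ht, ht2⟩ := resonance (P := y) (n := n) (T := T) hω1
      (a := fun p => 1 / (p : ℝ) * ‖Pp S c h p‖) (fun p => by positivity) hη0 hη1 hn hMM
    refine ⟨t, ⟨ht.1, by linarith [ht.2]⟩, ?_⟩
    have h1 := (abs_le.1 (hcomp t ⟨ht.1, by linarith [ht.2]⟩)).1
    have h2 : ∑ p ∈ prs 0 y, 1 / (p : ℝ) * ‖Pp S c h p‖ * (ω p * ee p t).re =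
        ∑ p ∈ prs 0 y, 1 / (p : ℝ) * (Pp S c h p * ee p t).re := by
      apply sum_congr rfl
      intro p _
      rw [mul_assoc, ← Complex.re_ofReal_mul]
      congr 2
      rw [hω]
      simp only
      split_ifs with h3
      · rw [h3]
        simp
      · have : (‖Pp S c h p‖ : ℂ) ≠ 0 := by exact_mod_cast norm_ne_zero_iff.2 h3
        field_simp
    rw [h2, ← hD] at ht2
    have h3 : L1 S c * (x - 1) ≤ L1 S c * Real.log (Real.log y) := mul_le_mul_of_nonneg_left hy4 hL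
    have h4 : ε / 4 * Real.log (Real.log y) ≤ ε / 4 * x :=
      mul_le_mul_of_nonneg_left hy5 (by linarith)
    have h5 : L1 S c * x - L1 S c - ε / 4 * x - B' ≤ D := by linarith [hm.1]
    have h6 : D ≤ L1 S c * x + ε / 4 * x + B' := by
      have h7 : L1 S c * Real.log (Real.log y) ≤ L1 S c * x := mul_le_mul_of_nonneg_left hy5 hL
      linarith [hm.2]
    have h7 : η * D ≤ ε / 4 * x + (ε / 4 * x + B') := by
      calc η * D ≤ η * (L1 S c * x + ε / 4 * x + B') := mul_le_mul_of_nonneg_left h6 hη0.le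
        _ = η * L1 S c * x + η * (ε / 4 * x + B') := by ring
        _ ≤ ε / 4 * x + 1 * (ε / 4 * x + B') := by
            apply add_le_add
            · exact mul_le_mul_of_nonneg_right hηL hx0
            · apply mul_le_mul_of_nonneg_right hη1
              positivity
        _ = _ := by ring
    linarith

end Pool.Agent.H.MP_2e4794_nt.RP
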