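import Pool.Agent.H.MP_2e4794_nt.RP.EQ
import Pool.Agent.H.MP_2e4794_nt.RL.DU

/-!
# The mean of a trigonometric polynomial, and sums over primes
-/

namespace Pool.Agent.H.MP_2e4794_nt.RP

open MeasureTheory UnitAddTorus Finset
open Pool.Agent.H.MP_2e4794_nt.RL (ee)

/-- the normalised measure on the circle -/
noncomputable local instance : MeasureSpace UnitAddCircle := ⟨AddCircle.haarAddCircle⟩

local instance : Measure.IsAddHaarMeasure (volume : Measure UnitAddCircle) :=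
  inferInstanceAs (Measure.IsAddHaarMeasure AddCircle.haarAddCircle)

local instance : IsProbabilityMeasure (volume : Measure UnitAddCircle) :=
  inferInstanceAs (IsProbabilityMeasure AddCircle.haarAddCircle)

variable {m : ℕ}

/-- the `L¹` norm of a trigonometric polynomial -/
noncomputable def L1 (S : Finset (Fin m → ℤ)) (c : (Fin m → ℤ) → ℝ) : ℝ :=
  ∫ x in Set.Icc (0 : Fin m → ℝ) 1,
    ‖∑ k ∈ S, (c k : ℂ) * Complex.exp (2 * Real.pi * Complex.I * ∑ i, (k i : ℂ) * (x i : ℂ))‖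

lemma mFourier_coe (k : Fin m → ℤ) (x : Fin m → ℝ) :
    mFourier k (fun i => ((x i : ℝ) : UnitAddCircle)) =
      Complex.exp (2 * Real.pi * Complex.I * ∑ i, (k i : ℂ) * (x i : ℂ)) := by
  simp only [mFourier, ContinuousMap.coe_mk, fourier_coe_apply, mul_sum, Complex.exp_sum]
  apply prod_congr rfl
  intro i _
  congr 1
  push_cast
  ring

lemma mFourier_prime (k : Fin m → ℤ) (h : Fin m → ℝ) {p : ℕ} (hp : p ≠ 0) :
    mFourier k (fun i => ((-(h i * Real.log p) / (2 * Real.pi) : ℝ) : UnitAddCircle)) =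
      ee p (∑ i, (k i : ℝ) * h i) := by
  rw [mFourier_coe]
  unfold ee
  rw [Complex.cpow_def_of_ne_zero (by exact_mod_cast hp), ← Complex.natCast_log]
  congr 1
  push_cast
  have h2 : (Real.pi : ℂ) ≠ 0 := by exact_mod_cast Real.pi_ne_zero
  rw [mul_sum, sum_mul, ← sum_neg_distrib, mul_sum]
  apply sum_congr rfl
  intro i _
  field_simp

/-- the absolute value of the polynomial, as a function on the torus -/
noncomputable def absP (S : Finset (Fin m → ℤ)) (c : (Fin m → ℤ) → ℝ) :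
    C(UnitAddTorus (Fin m), ℂ) where
  toFun x := ((‖∑ k ∈ S, (c k : ℂ) * mFourier k x‖ : ℝ) : ℂ)
  continuous_toFun := by fun_prop

lemma integral_absP (S : Finset (Fin m → ℤ)) (c : (Fin m → ℤ) → ℝ) :
    ∫ y, absP S c y = ((L1 S c : ℝ) : ℂ) := by
  rw [UnitAddTorus.integral_preimage _ 0, L1, ← integral_complex_ofReal]
  have h1 : (Set.Icc (0 : Fin m → ℝ) 1 : Set (Fin m → ℝ)) =ᵐ[volume]
      {x : Fin m → ℝ | ∀ i, x i ∈ Set.Ioc ((0 : Fin m → ℝ) i) ((0 : Fin m → ℝ) i + 1)} := by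
    have h3 := (Measure.univ_pi_Ioc_ae_eq_Icc (μ := fun _ : Fin m => (volume : Measure ℝ))
      (f := (0 : Fin m → ℝ)) (g := 1)).symm
    have h0 : (Set.univ.pi fun i => Set.Ioc ((0 : Fin m → ℝ) i) ((1 : Fin m → ℝ) i)) =
        {x : Fin m → ℝ | ∀ i, x i ∈ Set.Ioc ((0 : Fin m → ℝ) i) ((0 : Fin m → ℝ) i + 1)} := by
      ext x
      simp [Set.mem_pi]
    rw [h0] at h3
    exact h3
  rw [← setIntegral_congr_set h1]
  apply setIntegral_congr_fun measurableSet_Icc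
  intro x _
  simp only [absP, ContinuousMap.coe_mk]
  congr 2
  apply sum_congr rfl
  intro k _
  rw [mFourier_coe]

/-- **The mean over the primes.** -/
theorem torus_bound (S : Finset (Fin m → ℤ)) (c : (Fin m → ℤ) → ℝ) {ε : ℝ} (hε : 0 < ε) :
    ∃ K : ℕ, ∀ (s : Finset ℕ) (a : ℕ → ℝ) (h : Fin m → ℝ) (E : ℝ), 0 ≤ E →
      (∀ p ∈ s, 0 ≤ a p) → (∀ p ∈ s, p ≠ 0) →
      (∀ k : Fin m → ℤ, k ≠ 0 → (∀ j, |k j| ≤ K) →
        ‖∑ p ∈ s, (a p : ℂ) * ee p (∑ i, (k i : ℝ) * h i)‖ ≤ E) →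
      ∑ p ∈ s, a p * ‖∑ k ∈ S, (c k : ℂ) * ee p (∑ i, (k i : ℝ) * h i)‖ ≤
        (L1 S c + ε) * (∑ p ∈ s, a p) + K * E := by
  obtain ⟨K, hK⟩ := good_all (absP S c) ε hε
  refine ⟨K, ?_⟩
  intro s a h E hE ha hs hb
  have h1 := hK ℕ s a (fun p => fun i => ((-(h i * Real.log p) / (2 * Real.pi) : ℝ) :
    UnitAddCircle)) E hE ha (by
      intro k hk hj
      refine le_trans (le_of_eq ?_) (hb k hk hj)
      congr 1
      apply sum_congr rfl
      intro p hp
      rw [mFourier_prime k h (hs p hp)])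
  rw [integral_absP] at h1
  have h2 : ∑ p ∈ s, (a p : ℂ) * absP S c (fun i => ((-(h i * Real.log p) / (2 * Real.pi) : ℝ) :
      UnitAddCircle)) = ((∑ p ∈ s, a p * ‖∑ k ∈ S, (c k : ℂ) * ee p (∑ i, (k i : ℝ) * h i)‖ : ℝ) :
      ℂ) := by
    push_cast
    apply sum_congr rfl
    intro p hp
    simp only [absP, ContinuousMap.coe_mk]
    congr 3
    apply sum_congr rfl
    intro k _
    rw [mFourier_prime k h (hs p hp)]
  rw [h2, ← Complex.ofReal_sum, ← Complex.ofReal_mul, ← Complex.ofReal_sub, Complex.norm_real,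
    Real.norm_eq_abs] at h1
  have h3 := (abs_le.1 h1).2
  linarith

lemma ee_neg {p : ℕ} (hp : p ≠ 0) (u : ℝ) : ee p (-u) = (starRingEnd ℂ) (ee p u) := by
  have h0 : (p : ℂ) ≠ 0 := by exact_mod_cast hp
  unfold ee
  rw [Complex.cpow_def_of_ne_zero h0, Complex.cpow_def_of_ne_zero h0, ← Complex.natCast_log,
    ← Complex.exp_conj]
  congr 1
  simp only [map_mul, map_neg, Complex.conj_ofReal, Complex.conj_I]
  push_cast
  ring

/-- **The mean over the primes, two-sided.** -/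
theorem torus_even (S : Finset (Fin m → ℤ)) (c : (Fin m → ℤ) → ℝ) {ε : ℝ} (hε : 0 < ε) :
    ∃ K : ℕ, ∀ (s : Finset ℕ) (a : ℕ → ℝ) (h : Fin m → ℝ) (E : ℝ), 0 ≤ E →
      (∀ p ∈ s, 0 ≤ a p) → (∀ p ∈ s, p ≠ 0) →
      (∀ k : Fin m → ℤ, k ≠ 0 → (∀ j, |k j| ≤ K) →
        |∑ p ∈ s, a p * (ee p (∑ i, (k i : ℝ) * h i)).re| ≤ E) →
      |∑ p ∈ s, a p * ‖∑ k ∈ S, (c k : ℂ) * ee p (∑ i, (k i : ℝ) * h i)‖ -
        (∑ p ∈ s, a p) * L1 S c| ≤ ε * (∑ p ∈ s, a p) + K * E := by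
  obtain ⟨K, hK⟩ := good_all (absP S c) ε hε
  refine ⟨K, ?_⟩
  intro s a h E hE ha hs hb
  obtain ⟨x, hx⟩ : ∃ x : ℕ × Bool → UnitAddTorus (Fin m), x = fun q => fun i =>
      ((-((if q.2 then h i else -h i) * Real.log q.1) / (2 * Real.pi) : ℝ) : UnitAddCircle) :=
    ⟨_, rfl⟩
  have hxt : ∀ k : Fin m → ℤ, ∀ p ∈ s, mFourier k (x (p, true)) =
      ee p (∑ i, (k i : ℝ) * h i) := by
    intro k p hp
    rw [hx]
    exact mFourier_prime k h (hs p hp)
  have hxf : ∀ k : Fin m → ℤ, ∀ p ∈ s, mFourier k (x (p, false)) =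
      (starRingEnd ℂ) (ee p (∑ i, (k i : ℝ) * h i)) := by
    intro k p hp
    rw [hx, ← ee_neg (hs p hp)]
    have := mFourier_prime k (fun i => -h i) (hs p hp)
    refine this.trans ?_
    congr 1
    rw [← sum_neg_distrib]
    exact sum_congr rfl fun i _ => by ring
  have hsum : ∀ f : ℕ × Bool → ℂ, ∑ q ∈ s ×ˢ (univ : Finset Bool), f q =
      ∑ p ∈ s, (f (p, true) + f (p, false)) := by
    intro f
    rw [sum_product]
    apply sum_congr rfl
    intro p _
    rw [Fintype.sum_bool]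
  have hsumr : ∑ q ∈ s ×ˢ (univ : Finset Bool), a q.1 / 2 = ∑ p ∈ s, a p := by
    rw [sum_product]
    apply sum_congr rfl
    intro p _
    rw [Fintype.sum_bool]
    ring
  have h1 := hK (ℕ × Bool) (s ×ˢ univ) (fun q => a q.1 / 2) x E hE (by
      intro q hq
      rw [mem_product] at hq
      have := ha q.1 hq.1
      positivity) (by
      intro k hk hj
      refine le_trans (le_of_eq ?_) (hb k hk hj)
      rw [hsum, ← Real.norm_eq_abs, ← Complex.norm_real]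
      congr 1
      push_cast
      apply sum_congr rfl
      intro p hp
      rw [hxt k p hp, hxf k p hp]
      have := Complex.add_conj (ee p (∑ i, (k i : ℝ) * h i))
      rw [← mul_add, this]
      push_cast
      ring)
  have hsumc : ∑ q ∈ s ×ˢ (univ : Finset Bool), ((a q.1 / 2 : ℝ) : ℂ) =
      ((∑ p ∈ s, a p : ℝ) : ℂ) := by
    rw [← hsumr, Complex.ofReal_sum]
  rw [integral_absP, hsumc, hsumr, hsum] at h1
  have h2 : ∑ p ∈ s, (((a p / 2 : ℝ) : ℂ) * absP S c (x (p, true)) +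
      ((a p / 2 : ℝ) : ℂ) * absP S c (x (p, false))) =
      ((∑ p ∈ s, a p * ‖∑ k ∈ S, (c k : ℂ) * ee p (∑ i, (k i : ℝ) * h i)‖ : ℝ) : ℂ) := by
    push_cast
    apply sum_congr rfl
    intro p hp
    simp only [absP, ContinuousMap.coe_mk]
    have e1 : ∑ k ∈ S, (c k : ℂ) * mFourier k (x (p, true)) =
        ∑ k ∈ S, (c k : ℂ) * ee p (∑ i, (k i : ℝ) * h i) :=
      sum_congr rfl fun k _ => by rw [hxt k p hp]
    have e2 : ∑ k ∈ S, (c k : ℂ) * mFourier k (x (p, false)) =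
        (starRingEnd ℂ) (∑ k ∈ S, (c k : ℂ) * ee p (∑ i, (k i : ℝ) * h i)) := by
      rw [map_sum]
      apply sum_congr rfl
      intro k _
      rw [hxf k p hp, map_mul, Complex.conj_ofReal]
    rw [e1, e2, RCLike.norm_conj]
    ring
  simp only at h1
  rw [h2, ← Complex.ofReal_mul, ← Complex.ofReal_sub, Complex.norm_real, Real.norm_eq_abs] at h1
  exact h1

end Pool.Agent.H.MP_2e4794_nt.RP
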