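import Pool.Agent.H.MP_2e4794_nt.RP.RM

/-!
# The theorem on independent differences, under RH
-/

namespace Pool.Agent.H.MP_2e4794_nt.RP

open Finset Filter Topology
open Pool.Agent.H.MP_2e4794_nt.RL
open Pool.Agent.H.MP_2e4794_nt.ZM (prs mem_prs)

variable {m : ℕ}

/-- the error tends to zero -/
lemma ev_E {δ : ℝ} (hδ : 0 < δ) (K A : ℝ) {η : ℝ} (hη : 0 < η) :
    ∃ Y1 : ℕ, ∀ Y : ℕ, Y1 ≤ Y →
      A * (K * (Real.exp (-(5 * δ / 48 * Real.log Y)) + 1 / Real.sqrt (Real.log Y))) ≤ η := by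
  have hlY : Tendsto (fun Y : ℕ => Real.log (Y : ℝ)) atTop atTop :=
    Real.tendsto_log_atTop.comp tendsto_natCast_atTop_atTop
  have h1 : Tendsto (fun Y : ℕ => Real.exp (-(5 * δ / 48 * Real.log Y))) atTop (𝓝 0) := by
    apply Real.tendsto_exp_atBot.comp
    apply tendsto_neg_atTop_atBot.comp
    exact hlY.const_mul_atTop (by positivity)
  have h2 : Tendsto (fun Y : ℕ => 1 / Real.sqrt (Real.log Y)) atTop (𝓝 0) :=
    (Real.tendsto_sqrt_atTop.comp hlY).const_div_atTop 1
  have h3 : Tendsto (fun Y : ℕ => A * (K * (Real.exp (-(5 * δ / 48 * Real.log Y)) +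
      1 / Real.sqrt (Real.log Y)))) atTop (𝓝 (A * (K * (0 + 0)))) :=
    ((h1.add h2).const_mul K).const_mul A
  rw [add_zero, mul_zero, mul_zero] at h3
  exact eventually_atTop.1 (h3.eventually_le_const hη)

/-- a product of the constants -/
lemma const_bound {a ε η l : ℝ} (ha : 0 < a) (hη : 0 < η) (hl : 0 < l)
    (h : (a + η) * ((2 + η) * (1 + η) * Real.exp (4 * η)) ≤ 2 * a + ε) :
    Real.log ((a + η / 8) * ((2 + η) * (1 + η / 8) * ((1 + η / 8) * l))) + 3 * η ≤
      Real.log ((2 * a + ε) * l) := by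
  have h1 : Real.log ((a + η / 8) * ((2 + η) * (1 + η / 8) * ((1 + η / 8) * l))) + 3 * η =
      Real.log ((a + η / 8) * ((2 + η) * (1 + η / 8) * ((1 + η / 8) * l)) * Real.exp (3 * η)) := by
    rw [Real.log_mul (by positivity) (Real.exp_pos _).ne', Real.log_exp]
  rw [h1]
  apply Real.log_le_log (by positivity)
  refine le_trans ?_ (mul_le_mul_of_nonneg_right h hl.le)
  have h2 : Real.exp (4 * η) = Real.exp (3 * η) * Real.exp η := by
    rw [← Real.exp_add]; ring_nf
  have h3 : 1 + η ≤ Real.exp η := by linarith [Real.add_one_le_exp η]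
  have h4 : (1 + η / 8) * (1 + η / 8) ≤ (1 + η) * Real.exp η := by
    have : (1 + η / 8) * (1 + η / 8) ≤ (1 + η) * (1 + η) := by
      apply mul_le_mul <;> linarith
    refine this.trans ?_
    exact mul_le_mul_of_nonneg_left h3 (by linarith)
  have h5 : 0 ≤ (2 + η) * Real.exp (3 * η) * l := by positivity
  calc (a + η / 8) * ((2 + η) * (1 + η / 8) * ((1 + η / 8) * l)) * Real.exp (3 * η) =
      (a + η / 8) * ((1 + η / 8) * (1 + η / 8)) * ((2 + η) * Real.exp (3 * η) * l) := by ring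
    _ ≤ (a + η) * ((1 + η) * Real.exp η) * ((2 + η) * Real.exp (3 * η) * l) := by
        apply mul_le_mul_of_nonneg_right _ h5
        apply mul_le_mul _ h4 (by positivity) (by positivity)
        linarith
    _ = _ := by rw [h2]; ring

/-- **Independent differences, under RH.** -/
theorem indep (RH : RiemannHypothesis) (S : Finset (Fin m → ℤ)) (c : (Fin m → ℤ) → ℝ)
    {ε : ℝ} (hε : 0 < ε) :
    ∃ C : ℝ, 3 ≤ C ∧ ∀ (h : Fin m → ℝ) (t H : ℝ), C ≤ H → C * H ≤ t → (∀ i, |h i| ≤ H) →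
      (∀ k : Fin m → ℤ, k ≠ 0 → (∀ i, |(k i : ℝ)| ≤ C) → C ≤ |∑ i, (k i : ℝ) * h i|) →
      ∑ k ∈ S, c k * Real.log ‖riemannZeta
          (1 + ((t + ∑ i, (k i : ℝ) * h i : ℝ) : ℂ) * Complex.I)‖ ≤
        (L1 S c + ε) * Real.log (Real.log (Real.log t) / Real.log (Real.log H)) +
        ∑ k ∈ S, (max (c k) 0 *
            Real.log ((2 * Real.exp Real.eulerMascheroniConstant + ε) * Real.log (Real.log H)) +
          max (-(c k)) 0 *
            Real.log ((2 * (6 / Real.pi ^ 2 * Real.exp Real.eulerMascheroniConstant) + ε) *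
              Real.log (Real.log H))) := by
  obtain ⟨A, hA⟩ : ∃ A, A = ∑ k ∈ S, |c k| := ⟨_, rfl⟩
  have hA0 : 0 ≤ A := by
    rw [hA]
    exact sum_nonneg fun _ _ => abs_nonneg _
  rcases hA0.eq_or_lt with hA1 | hA1
  · -- the trivial case
    have hc : ∀ k ∈ S, c k = 0 := by
      intro k hk
      have := (sum_eq_zero_iff_of_nonneg (fun k _ => abs_nonneg (c k))).1 (hA ▸ hA1.symm) k hk
      exact abs_eq_zero.1 this
    refine ⟨16, by norm_num, ?_⟩
    intro h t H hH ht _ _
    have h1 : ∑ k ∈ S, c k * Real.log ‖riemannZeta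
        (1 + ((t + ∑ i, (k i : ℝ) * h i : ℝ) : ℂ) * Complex.I)‖ = 0 :=
      sum_eq_zero fun k hk => by rw [hc k hk, zero_mul]
    have h2 : ∑ k ∈ S, (max (c k) 0 *
            Real.log ((2 * Real.exp Real.eulerMascheroniConstant + ε) * Real.log (Real.log H)) +
          max (-(c k)) 0 *
            Real.log ((2 * (6 / Real.pi ^ 2 * Real.exp Real.eulerMascheroniConstant) + ε) *
              Real.log (Real.log H))) = 0 :=
      sum_eq_zero fun k hk => by rw [hc k hk]; simp
    rw [h1, h2, add_zero]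
    apply mul_nonneg (by linarith [L1_nonneg S c])
    apply Real.log_nonneg
    have h3 : (1 : ℝ) < Real.log 16 := by
      rw [Real.lt_log_iff_exp_lt (by norm_num)]
      linarith [Real.exp_one_lt_d9]
    have h4 : Real.log 16 ≤ Real.log H := Real.log_le_log (by norm_num) hH
    have h5 : 0 < Real.log (Real.log H) := Real.log_pos (by linarith)
    rw [le_div_iff₀ h5, one_mul]
    apply Real.log_le_log (by linarith)
    apply Real.log_le_log (by linarith)
    have h6 : 16 * H ≤ t := ht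
    linarith
  obtain ⟨η, hη0, hη1, hea, heb⟩ := choose_eta (a := Real.exp Real.eulerMascheroniConstant)
    (b := 6 / Real.pi ^ 2 * Real.exp Real.eulerMascheroniConstant) hε
  obtain ⟨ε', hε'⟩ : ∃ ε', ε' = min ε (A / 4) := ⟨_, rfl⟩
  have hε'0 : 0 < ε' := by
    rw [hε']
    exact lt_min hε (by linarith)
  have hε'1 : ε' ≤ ε := hε' ▸ min_le_left _ _
  have hε'2 : ε' ≤ A / 4 := hε' ▸ min_le_right _ _
  obtain ⟨K', hK'⟩ := torus_bound S c hε'0
  obtain ⟨K, U0, Y0, hK, hU0, hY0, hpack⟩ := package RH hη0 (by linarith)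
  obtain ⟨Y1, hY1⟩ := ev_E hη0 K K' (η := η * A / 2) (by positivity)
  obtain ⟨C0, hC0, hevH⟩ := ev_H K hη0 (η := η / 8) (by linarith) (max Y0 Y1)
  obtain ⟨C1, hevx⟩ := ev_x 1 hη0 (by linarith) (η := η / 8) (by linarith)
  -- the size of the coefficients
  obtain ⟨N, hN⟩ : ∃ N : ℝ, N = ∑ k ∈ S, ∑ i, |(k i : ℝ)| := ⟨_, rfl⟩
  have hN0 : 0 ≤ N := by
    rw [hN]
    exact sum_nonneg fun _ _ => sum_nonneg fun _ _ => abs_nonneg _
  obtain ⟨C', hC'⟩ : ∃ C' : ℝ, C' = 1 + m * K' := ⟨_, rfl⟩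
  have hC'1 : 1 ≤ C' := by
    rw [hC']
    have : (0 : ℝ) ≤ m * K' := by positivity
    linarith
  obtain ⟨C2, hC2⟩ : ∃ C2, ∀ H : ℝ, C2 ≤ H → Real.log 2 ≤ η / 8 * Real.log (Real.log H) := by
    have : Tendsto (fun H : ℝ => η / 8 * Real.log (Real.log H)) atTop atTop :=
      tendsto_loglog.const_mul_atTop (by positivity)
    exact eventually_atTop.1 (this.eventually_ge_atTop _)
  obtain ⟨C, hC⟩ : ∃ C, C = C0 + |C1| + |C2| + U0 + 2 * N + C' + K' := ⟨_, rfl⟩
  have hK'0 : (0 : ℝ) ≤ K' := Nat.cast_nonneg _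
  have q1 : C0 ≤ C := by rw [hC]; linarith [abs_nonneg C1, abs_nonneg C2]
  have q2 : C1 ≤ C := by rw [hC]; linarith [abs_nonneg C1, abs_nonneg C2, le_abs_self C1]
  have q3 : C2 ≤ C := by rw [hC]; linarith [abs_nonneg C1, abs_nonneg C2, le_abs_self C2]
  have q4 : U0 ≤ C := by rw [hC]; linarith [abs_nonneg C1, abs_nonneg C2]
  have q5 : 2 * N ≤ C := by rw [hC]; linarith [abs_nonneg C1, abs_nonneg C2]
  have q6 : C' ≤ C := by rw [hC]; linarith [abs_nonneg C1, abs_nonneg C2]
  have q7 : (K' : ℝ) ≤ C := by rw [hC]; linarith [abs_nonneg C1, abs_nonneg C2]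
  have hC3 : 3 ≤ C := hC0.trans q1
  refine ⟨C, hC3, ?_⟩
  intro h t H hH ht hh hsep
  have hH0 : 0 < H := by linarith
  have hCHt : C' * H ≤ t := (mul_le_mul_of_nonneg_right q6 hH0.le).trans ht
  have hHH : H ≤ C' * H := le_mul_of_one_le_left hH0.le hC'1
  have h3Ht : 3 * H ≤ t := (mul_le_mul_of_nonneg_right hC3 hH0.le).trans ht
  have htC : C ≤ t := by linarith
  obtain ⟨a1, a2, a3, a4, a5, a6, a7, a8⟩ := hevH (C' * H) ((q1.trans hH).trans hHH)
  obtain ⟨b1, b2, -⟩ := hevx t (q2.trans htC)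
  obtain ⟨Y, hY⟩ : ∃ Y, Y = ⌈Real.log (C' * H) ^ (2 + η)⌉₊ := ⟨_, rfl⟩
  obtain ⟨y, hy⟩ : ∃ y, y = ⌈Real.log (2 * t) ^ (2 + η)⌉₊ := ⟨_, rfl⟩
  rw [← hY] at a1 a2 a3 a4 a5 a6
  rw [← hy] at b1 b2
  obtain ⟨l, hl⟩ : ∃ l, l = Real.log (Real.log H) := ⟨_, rfl⟩
  obtain ⟨l', hl'⟩ : ∃ l', l' = Real.log (Real.log (C' * H)) := ⟨_, rfl⟩
  obtain ⟨X, hX⟩ : ∃ X, X = Real.log (Real.log t) := ⟨_, rfl⟩
  rw [← hl'] at a4 a5 a7
  rw [← hX] at b1 b2
  rw [← hX, ← hl]
  have hlH : 1 < Real.log H := by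
    have h1 : Real.exp 1 < H := by linarith [Real.exp_one_lt_d9]
    rw [Real.lt_log_iff_exp_lt hH0]
    exact h1
  have hl0 : 0 < l := by
    rw [hl]
    exact Real.log_pos hlH
  have hll' : l ≤ l' := by
    rw [hl, hl']
    exact Real.log_le_log (by linarith) (Real.log_le_log hH0 hHH)
  have hl'l : l' ≤ (1 + η / 8) * l := by
    have h1 : Real.log (C' * H) ≤ 2 * Real.log H := by
      rw [Real.log_mul (by linarith) hH0.ne']
      have := Real.log_le_log (by linarith) (q6.trans hH)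
      linarith
    have h2 : l' ≤ Real.log (2 * Real.log H) := by
      rw [hl']
      exact Real.log_le_log (by linarith) h1
    rw [Real.log_mul (by norm_num) (by linarith)] at h2
    have h3 := hC2 H (q3.trans hH)
    rw [← hl] at h2 h3
    linarith
  have hl'X : l' ≤ X := by
    rw [hl', hX]
    exact Real.log_le_log (by linarith) (Real.log_le_log (by positivity) hCHt)
  have hX0 : 0 < X := by linarith
  obtain ⟨Λ, hΛ⟩ : ∃ Λ, Λ = Real.log (X / l) := ⟨_, rfl⟩
  rw [← hΛ]
  have hΛ0 : 0 ≤ Λ := by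
    rw [hΛ]
    apply Real.log_nonneg
    rw [le_div_iff₀ hl0]
    linarith
  have hYy : Y ≤ y := by
    rw [hY, hy]
    apply Nat.ceil_mono
    apply Real.rpow_le_rpow (by linarith) _ (by linarith)
    exact Real.log_le_log (by positivity) (by linarith)
  have hYY0 : Y0 ≤ Y := (le_max_left _ _).trans a1
  have hYY1 : Y1 ≤ Y := (le_max_right _ _).trans a1
  obtain ⟨w, hw0, hwW, hwu, hwt⟩ := hpack Y y hYY0 hYy
  have hY16 : 16 ≤ Y := hY0.trans hYY0
  have hY16' : (16 : ℝ) ≤ Y := by exact_mod_cast hY16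
  have hYy' : (Y : ℝ) ≤ y := by exact_mod_cast hYy
  have hLY : 0 < Real.log Y := Real.log_pos (by linarith)
  have hLy : Real.log Y ≤ Real.log y := Real.log_le_log (by linarith) hYy'
  have hLy0 : 0 < Real.log y := by linarith
  -- the total weight
  have hW : ∑ p ∈ prs 0 y, w p * (1 / (p : ℝ)) ≤ Λ + 2 * (η / 8) := by
    have h1 := (abs_le.1 (WW_window (by omega) hYy)).2
    have h2 : Real.log (Real.log y) ≤ Real.log ((2 + η) * (1 + η / 8) * X) :=
      Real.log_le_log hLy0 b1
    have h3 : Real.log ((2 + η) * l') ≤ Real.log (Real.log Y) :=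
      Real.log_le_log (by positivity) a5
    have h3' : Real.log ((2 + η) * l) ≤ Real.log ((2 + η) * l') :=
      Real.log_le_log (by positivity) (mul_le_mul_of_nonneg_left hll' (by linarith))
    have h4 : Real.log ((2 + η) * (1 + η / 8) * X) - Real.log ((2 + η) * l) =
        Real.log (1 + η / 8) + Λ := by
      rw [hΛ, Real.log_div hX0.ne' hl0.ne', Real.log_mul (by positivity) hX0.ne',
        Real.log_mul (by positivity) (by positivity), Real.log_mul (by positivity) hl0.ne']
      ring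
    have h5 : Real.log (1 + η / 8) ≤ η / 8 := by
      have := Real.log_le_sub_one_of_pos (show 0 < 1 + η / 8 by linarith)
      linarith
    linarith
  -- the off-diagonal terms
  obtain ⟨E, hE⟩ : ∃ E, E = K * (Real.exp (-(5 * η / 48 * Real.log Y)) +
    1 / Real.sqrt (Real.log y)) := ⟨_, rfl⟩
  have hE0 : 0 ≤ E := by
    rw [hE]
    positivity
  have hKE : K' * E ≤ η * A / 2 := by
    refine le_trans ?_ (hY1 Y hYY1)
    apply mul_le_mul_of_nonneg_left _ hK'0
    rw [hE]
    apply mul_le_mul_of_nonneg_left _ hK.le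
    apply add_le_add le_rfl
    exact one_div_le_one_div_of_le (Real.sqrt_pos.2 hLY) (Real.sqrt_le_sqrt hLy)
  have hoff : ∀ k : Fin m → ℤ, k ≠ 0 → (∀ j, |k j| ≤ K') →
      ‖∑ p ∈ prs 0 y, ((w p * (1 / (p : ℝ)) : ℝ) : ℂ) * ee p (∑ i, (k i : ℝ) * h i)‖ ≤ E := by
    intro k hk hj
    have hjr : ∀ j, |(k j : ℝ)| ≤ K' := by
      intro j
      have := hj j
      exact_mod_cast this
    have h1 := hsep k hk (fun j => (hjr j).trans q7)
    have h2 : |∑ i, (k i : ℝ) * h i| ≤ C' * H := by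
      refine (abs_sum_le_sum_abs _ _).trans ?_
      calc ∑ i, |(k i : ℝ) * h i| ≤ ∑ i : Fin m, (K' : ℝ) * H := by
            apply sum_le_sum
            intro i _
            rw [abs_mul]
            exact mul_le_mul (hjr i) (hh i) (abs_nonneg _) hK'0
        _ = m * K' * H := by rw [sum_const, card_univ, Fintype.card_fin, nsmul_eq_mul]; ring
        _ ≤ C' * H := by
            apply mul_le_mul_of_nonneg_right _ hH0.le
            rw [hC']
            linarith
    have key : ∀ u : ℝ, C ≤ u → u ≤ C' * H → ‖VV w y (1 + u * Complex.I)‖ ≤ E := by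
      intro u hu1 hu2
      rw [hE]
      apply hwu u (q4.trans hu1)
      refine le_trans ?_ (hY ▸ Nat.le_ceil _)
      apply Real.rpow_le_rpow (Real.log_nonneg (by linarith)) _ (by linarith)
      exact Real.log_le_log (by linarith) hu2
    rw [← VV_eq]
    rcases le_or_gt 0 (∑ i, (k i : ℝ) * h i) with h3 | h3
    · rw [abs_of_nonneg h3] at h1 h2
      exact key _ h1 h2
    · rw [abs_of_neg h3] at h1 h2
      have h4 := norm_VV_neg w y (-(∑ i, (k i : ℝ) * h i))
      rw [neg_neg] at h4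
      rw [h4]
      exact key _ h1 h2
  -- the large primes
  have hlarge : ∑ k ∈ S, c k * (VV w y
      (1 + ((t + ∑ i, (k i : ℝ) * h i : ℝ) : ℂ) * Complex.I)).re ≤
      (L1 S c + ε) * Λ + η * A := by
    refine (sum_VV_le S c hw0 y h t).trans ?_
    have h1 := hK' (prs 0 y) (fun p => w p * (1 / (p : ℝ))) h E hE0
      (fun p _ => mul_nonneg (hw0 p) (by positivity))
      (fun p hp => ((mem_prs.1 hp).2).ne_zero) hoff
    refine h1.trans ?_
    have h2 : (L1 S c + ε') * (∑ p ∈ prs 0 y, w p * (1 / (p : ℝ))) ≤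
        (L1 S c + ε') * (Λ + 2 * (η / 8)) :=
      mul_le_mul_of_nonneg_left hW (by linarith [L1_nonneg S c])
    have h3 : (L1 S c + ε') * Λ ≤ (L1 S c + ε) * Λ :=
      mul_le_mul_of_nonneg_right (by linarith) hΛ0
    have h4 : (L1 S c + ε') * (2 * (η / 8)) ≤ (2 * A) * (2 * (η / 8)) := by
      apply mul_le_mul_of_nonneg_right _ (by positivity)
      have := L1_le S c
      rw [← hA] at this
      linarith
    linarith
  -- one point
  have hpoint : ∀ k ∈ S, c k * Real.log ‖riemannZeta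
      (1 + ((t + ∑ i, (k i : ℝ) * h i : ℝ) : ℂ) * Complex.I)‖ ≤
      c k * (VV w y (1 + ((t + ∑ i, (k i : ℝ) * h i : ℝ) : ℂ) * Complex.I)).re +
      (max (c k) 0 * (Real.log ((2 * Real.exp Real.eulerMascheroniConstant + ε) * l) - 2 * η) +
      max (-(c k)) 0 * (Real.log ((2 * (6 / Real.pi ^ 2 *
        Real.exp Real.eulerMascheroniConstant) + ε) * l) - 2 * η)) := by
    intro k hk
    obtain ⟨u, hu⟩ : ∃ u : ℝ, u = t + ∑ i, (k i : ℝ) * h i := ⟨_, rfl⟩
    rw [← hu]
    have h1 : |∑ i, (k i : ℝ) * h i| ≤ t / 2 := by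
      have h2 : |∑ i, (k i : ℝ) * h i| ≤ N * H := by
        refine (abs_sum_le_sum_abs _ _).trans ?_
        calc ∑ i, |(k i : ℝ) * h i| ≤ ∑ i, |(k i : ℝ)| * H := by
              apply sum_le_sum
              intro i _
              rw [abs_mul]
              exact mul_le_mul_of_nonneg_left (hh i) (abs_nonneg _)
          _ = (∑ i, |(k i : ℝ)|) * H := by rw [sum_mul]
          _ ≤ N * H := by
              apply mul_le_mul_of_nonneg_right _ hH0.le
              rw [hN]
              exact single_le_sum (f := fun k : Fin m → ℤ => ∑ i, |(k i : ℝ)|)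
                (fun _ _ => sum_nonneg fun _ _ => abs_nonneg _) hk
      have h3 : 2 * N * H ≤ t := (mul_le_mul_of_nonneg_right q5 hH0.le).trans ht
      linarith
    have h1' := abs_le.1 h1
    have hu1 : t / 2 ≤ u := by linarith [h1'.1]
    have hu2 : u ≤ 2 * t := by linarith [h1'.2]
    obtain ⟨z, hz1, hz2⟩ := hwt u (by linarith) (by
      refine le_trans ?_ (hy ▸ Nat.le_ceil _)
      apply Real.rpow_le_rpow (Real.log_nonneg (by linarith)) _ (by linarith)
      exact Real.log_le_log (by linarith) hu2)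
    have hz3 : ‖z‖ ≤ η / 8 := by
      refine hz1.trans ?_
      have : 0 ≤ 12 / Real.log Y := by positivity
      linarith
    have hz4 := abs_le.1 ((Complex.abs_re_le_norm z).trans hz3)
    have hb := SY_bounds Y (hsre u).ge
    rw [hz2, Complex.norm_exp, Real.log_exp, Complex.add_re, Complex.add_re]
    have hfac : ∀ a : ℝ, 0 < a → (a + η / 8) * Real.log Y ≤
        (a + η / 8) * ((2 + η) * (1 + η / 8) * ((1 + η / 8) * l)) := by
      intro a ha
      apply mul_le_mul_of_nonneg_left _ (by positivity)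
      refine a4.trans ?_
      exact mul_le_mul_of_nonneg_left hl'l (by positivity)
    have e1 : (SY Y (1 + u * Complex.I)).re + 3 * η ≤
        Real.log ((2 * Real.exp Real.eulerMascheroniConstant + ε) * l) := by
      refine le_trans ?_ (const_bound (Real.exp_pos _) hη0 hl0 hea)
      have h2 := hb.1.trans (a2.trans (hfac _ (Real.exp_pos _)))
      have h3 := (Real.le_log_iff_exp_le ((Real.exp_pos _).trans_le h2)).2 h2
      linarith
    have e2 : -(SY Y (1 + u * Complex.I)).re + 3 * η ≤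
        Real.log ((2 * (6 / Real.pi ^ 2 * Real.exp Real.eulerMascheroniConstant) + ε) * l) := by
      refine le_trans ?_ (const_bound (by positivity) hη0 hl0 heb)
      have h2 := hb.2.trans (a3.trans (hfac _ (by positivity)))
      have h3 := (Real.le_log_iff_exp_le ((Real.exp_pos _).trans_le h2)).2 h2
      linarith
    rcases le_total 0 (c k) with h5 | h5
    · rw [max_eq_left h5, max_eq_right (by linarith : -(c k) ≤ 0), zero_mul, add_zero]
      have h6 := mul_le_mul_of_nonneg_left e1 h5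
      have h7 := mul_le_mul_of_nonneg_left hz4.2 h5
      have h8 : 0 ≤ c k * η := mul_nonneg h5 hη0.le
      linarith
    · rw [max_eq_right h5, max_eq_left (by linarith : 0 ≤ -(c k)), zero_mul, zero_add]
      have h6 := mul_le_mul_of_nonneg_left e2 (by linarith : 0 ≤ -(c k))
      have h7 := mul_le_mul_of_nonneg_left hz4.1 (by linarith : 0 ≤ -(c k))
      have h8 : 0 ≤ -(c k) * η := mul_nonneg (by linarith) hη0.le
      linarith
  refine (sum_le_sum hpoint).trans ?_
  rw [sum_add_distrib]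
  have hsum : ∑ k ∈ S, (max (c k) 0 * (Real.log ((2 * Real.exp Real.eulerMascheroniConstant + ε) *
      l) - 2 * η) + max (-(c k)) 0 * (Real.log ((2 * (6 / Real.pi ^ 2 *
        Real.exp Real.eulerMascheroniConstant) + ε) * l) - 2 * η)) =
      ∑ k ∈ S, (max (c k) 0 * Real.log ((2 * Real.exp Real.eulerMascheroniConstant + ε) * l) +
        max (-(c k)) 0 * Real.log ((2 * (6 / Real.pi ^ 2 *
          Real.exp Real.eulerMascheroniConstant) + ε) * l)) - 2 * η * A := by
    rw [hA, mul_sum, ← sum_sub_distrib]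
    apply sum_congr rfl
    intro k _
    have h1 : |c k| = max (c k) 0 + max (-(c k)) 0 := by
      rcases le_total 0 (c k) with h5 | h5
      · rw [max_eq_left h5, max_eq_right (by linarith : -(c k) ≤ 0), abs_of_nonneg h5, add_zero]
      · rw [max_eq_right h5, max_eq_left (by linarith : 0 ≤ -(c k)), abs_of_nonpos h5, zero_add]
    rw [h1]
    ring
  rw [hsum]
  have : 0 ≤ η * A := by positivity
  linarith

end Pool.Agent.H.MP_2e4794_nt.RP
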